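import Pool.Agent.L0h5.TU.Stm
import Pool.Agent.L0h5.AG.A4

/-!
# The truncated abstract bound: one variable
-/

set_option autoImplicit false

namespace Pool.Agent.L0h5.TU

open Finset Pool.Agent.W262.RK Pool.Agent.W262.RK.AT Pool.Agent.L0h5.AG

open Pool.Agent.L0h5.TT (psi LL S_COEF)

variable {ι J : Type} [Fintype ι] [DecidableEq ι] [Fintype J] [DecidableEq J]

/-- the numbers of the primes, by types -/
def cnt (t : ι → J) (d : ι → ℕ) : J → ℕ :=
  fun a => ∑ i ∈ univ.filter (fun i => t i = a), (d i).primeFactors.card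

/-- the summand with the truncation -/
noncomputable def HF (g : ι → ℕ → ℝ) (L : ι → ι → Bool) (t : ι → J) (F : (J → ℕ) → ℝ)
    (d : ι → ℕ) : ℝ := HG g L d * F (cnt t d)

variable {g : ι → ℕ → ℝ} {e : ι → ℝ} {L : ι → ι → Bool} {c z : ℕ} {C : ℝ} {t : ι → J}
  {F : (J → ℕ) → ℝ}

lemma cnt_update (t : ι → J) (e : ι → ℕ) (i : ι) (m : ℕ) :
    cnt t (Function.update e i m) =
      fun a => cnt t (Function.update e i 1) a + if t i = a then m.primeFactors.card else 0 := by
  funext a
  unfold cnt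
  by_cases h : t i = a
  · have hi : i ∈ univ.filter (fun i => t i = a) := by simp [h]
    rw [if_pos h, ← add_sum_erase _ _ hi, ← add_sum_erase _ _ hi, Function.update_self,
      Function.update_self]
    have : ∀ m, ∑ x ∈ (univ.filter (fun i => t i = a)).erase i,
        (Function.update e i m x).primeFactors.card =
        ∑ x ∈ (univ.filter (fun i => t i = a)).erase i, (e x).primeFactors.card := by
      intro m
      refine sum_congr rfl fun x hx => ?_
      rw [Function.update_of_ne (mem_erase.1 hx).1]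
    rw [this, this]
    simp
    ring
  · rw [if_neg h, add_zero]
    refine sum_congr rfl fun x hx => ?_
    have hx' : x ≠ i := by
      rintro rfl
      exact h (mem_filter.1 hx).2
    rw [Function.update_of_ne hx', Function.update_of_ne hx']

lemma abs_HF_le (hF : ∀ n, |F n| ≤ 1) (g : ι → ℕ → ℝ) (L : ι → ι → Bool) (t : ι → J)
    (d : ι → ℕ) : |HF g L t F d| ≤ ∏ i, ah g i (d i) := by
  unfold HF
  rw [abs_mul]
  exact (mul_le_of_le_one_right (abs_nonneg _) (hF _)).trans (abs_HG_le' g L d)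

/-- trivial bound -/
lemma trivF (hF : ∀ n, |F n| ≤ 1) (g : ι → ℕ → ℝ) (L : ι → ι → Bool) (t : ι → J)
    (s : ι → Finset ℕ) :
    |∑ d ∈ Fintype.piFinset s, HF g L t F d| ≤ ∏ i, ∑ m ∈ s i, ah g i m := by
  rw [prod_univ_sum]
  exact (abs_sum_le_sum_abs _ _).trans (sum_le_sum fun d _ => abs_HF_le hF g L t d)

lemma totalF_eq (g : ι → ℕ → ℝ) (L : ι → ι → Bool) (t : ι → J) (F : (J → ℕ) → ℝ)
    (z y : ℕ) :
    ∑ d ∈ Tup ι z y, ((∏ i, gg g i (d i)) * Sym L (fun _ => 1) d) *
        F (fun a => ∑ i ∈ univ.filter (fun i => t i = a), (d i).primeFactors.card) =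
      ∑ d ∈ Fintype.piFinset (fun _ : ι => (PP z y).divisors), HF g L t F d := by
  unfold Tup HF HG
  rw [sum_filter]
  refine sum_congr rfl fun d _ => ?_
  split_ifs
  · rfl
  · rw [zero_mul]

lemma sum_inv_sq (z y : ℕ) (hz : 1 ≤ z) : ∑ p ∈ PS z y, 1 / (p : ℝ) ^ 2 ≤ 1 := by
  have h8 : ∑ p ∈ PS z y, 1 / (p : ℝ) ^ 2 ≤ ∑ p ∈ Ioc 1 y, 1 / (p : ℝ) ^ 2 := by
    refine sum_le_sum_of_subset_of_nonneg ?_ fun _ _ _ => by positivity
    intro p hp
    have := mem_PS.1 hp
    exact mem_Ioc.2 ⟨by omega, this.1.2⟩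
  refine h8.trans ?_
  have h9 : ∀ y : ℕ, ∑ p ∈ Ioc 1 y, 1 / (p : ℝ) ^ 2 ≤ 1 - 1 / (y : ℝ) := by
    intro y
    induction y with
    | zero => simp
    | succ n ih =>
      rcases Nat.eq_zero_or_pos n with hn | hn
      · subst hn
        simp
      · rw [sum_Ioc_succ_top (by omega)]
        have hn' : (1 : ℝ) ≤ n := by exact_mod_cast hn
        have h3 : 1 / ((n : ℝ) + 1) ^ 2 ≤ 1 / (n : ℝ) - 1 / ((n : ℝ) + 1) := by
          rw [div_sub_div _ _ (by positivity) (by positivity), div_le_div_iff₀ (by positivity)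
            (by positivity)]
          nlinarith
        push_cast
        linarith
  have h10 := h9 y
  have : (0 : ℝ) ≤ 1 / (y : ℝ) := by positivity
  linarith

omit [Fintype ι] [DecidableEq ι] in
/-- the twisted Euler product with a truncation -/
lemma eulerF (hCO : S_COEF) (hB : Bw g e c z C) (i : ι) {y R r : ℕ} (t : Bool) (hR : R ≠ 0)
    {B : ℝ} (hb : |∑ p ∈ PS z y, g i p * (Jr p r * x4 t p)| ≤ B) {φ : ℕ → ℝ} {N : ℕ}
    (hφ : ∀ n, |φ n| ≤ 1) (hN : ∀ n, N < n → φ n = 0) :
    |∑ d ∈ (PP z y).divisors.filter (fun d => d.Coprime R),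
        gg g i d * (Jr d r * x4 t d) * φ d.primeFactors.card| ≤
      (N + 1) * (Real.exp (B + 1) * hh R) := by
  classical
  set S' := (PS z y).filter (fun p => ¬ p ∣ R) with hS'
  have hS'p : ∀ p ∈ S', p.Prime := fun p hp => Pool.Agent.W655.RK.PS_prime (mem_filter.1 hp).1
  have hset : (PP z y).divisors.filter (fun d => d.Coprime R) = (∏ p ∈ S', p).divisors := by
    have hsq1 := Pool.Agent.W655.RK.prod_primes_squarefree (PS z y)
      fun p hp => Pool.Agent.W655.RK.PS_prime hp
    have hsq2 := Pool.Agent.W655.RK.prod_primes_squarefree S' hS'p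
    ext d
    rw [mem_filter, Nat.mem_divisors, Nat.mem_divisors]
    constructor
    · rintro ⟨⟨hd, -⟩, hc⟩
      refine ⟨?_, hsq2.ne_zero⟩
      have hsd : Squarefree d := hsq1.squarefree_of_dvd hd
      rw [← Nat.prod_primeFactors_of_squarefree hsd]
      refine Finset.prod_dvd_prod_of_subset _ _ _ fun p hp => ?_
      have hpp := Nat.prime_of_mem_primeFactors hp
      have hpd := Nat.dvd_of_mem_primeFactors hp
      have h1 : p ∈ PS z y := by
        rw [← Nat.primeFactors_prod (s := PS z y) fun p hp => Pool.Agent.W655.RK.PS_prime hp]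
        exact Nat.primeFactors_mono hd hsq1.ne_zero hp
      refine mem_filter.2 ⟨h1, fun hpR => ?_⟩
      have := Nat.dvd_gcd hpd hpR
      rw [hc.gcd_eq_one] at this
      exact hpp.one_lt.ne' (Nat.dvd_one.1 this)
    · rintro ⟨hd, -⟩
      refine ⟨⟨hd.trans (Finset.prod_dvd_prod_of_subset _ _ _ (filter_subset _ _)),
        hsq1.ne_zero⟩, ?_⟩
      refine Nat.Coprime.coprime_dvd_left hd ?_
      exact Nat.Coprime.prod_left fun p hp =>
        ((hS'p p hp).coprime_iff_not_dvd).2 (mem_filter.1 hp).2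
  set ψ : ℕ → ℝ := fun p => Jr p r * x4 t p with hψ
  have hψ1 : ∀ p, |ψ p| ≤ 1 := by
    intro p
    rw [hψ]
    simp only
    rw [abs_mul]
    exact mul_le_one₀ (abs_Jr_le _ _) (abs_nonneg _) (abs_x4_le _ _)
  have hchr : ∀ d, Pool.Agent.W655.RK.chr 1 r t d = ψ d := by
    intro d
    simp only [hψ, Pool.Agent.W655.RK.chr, Jr_one_left', mul_one]
  have hsum : ∑ d ∈ (PP z y).divisors.filter (fun d => d.Coprime R),
      gg g i d * (Jr d r * x4 t d) * φ d.primeFactors.card =
      ∑ T ∈ S'.powerset, φ T.card * ∏ p ∈ T, (g i p * ψ p) := by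
    rw [hset, ← Pool.Agent.W655.RK.sum_divisors S' hS'p
      (fun T => φ T.card * ∏ p ∈ T, (g i p * ψ p))]
    refine Finset.sum_congr rfl fun d hd => ?_
    have hsd : Squarefree d :=
      (Pool.Agent.W655.RK.prod_primes_squarefree S' hS'p).squarefree_of_dvd
        (Nat.dvd_of_mem_divisors hd)
    have h1 : ψ d = ∏ p ∈ d.primeFactors, ψ p := by
      have h2 := Pool.Agent.W655.RK.chr_prod 1 r t d.primeFactors
        (fun p hp => Nat.prime_of_mem_primeFactors hp)
      rw [Nat.prod_primeFactors_of_squarefree hsd] at h2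
      rw [← hchr, h2]
      exact prod_congr rfl fun p _ => hchr p
    show gg g i d * ψ d * _ = _
    rw [h1, gg, ← Finset.prod_mul_distrib]
    ring
  rw [hsum]
  have hgb : ∀ p ∈ PS z y, |g i p| ≤ 1 / (p : ℝ) ∧ (3 : ℝ) ≤ p := by
    intro p hp
    have hp' := mem_PS.1 hp
    have h1 := hB.g1 i p hp'.2 hp'.1.1
    have h2 : (2 * c + 3 : ℝ) ≤ p := by
      have := hB.zc
      exact_mod_cast (by omega : 2 * c + 3 ≤ p)
    have hc0 : (0 : ℝ) ≤ c := Nat.cast_nonneg c
    have h3 : (0 : ℝ) < (p : ℝ) - c := by linarith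
    refine ⟨h1.trans ?_, by linarith⟩
    rw [div_le_div_iff₀ h3 (by linarith)]
    linarith
  have hx1 : ∀ p ∈ PS z y, |g i p * ψ p| ≤ 1 / (p : ℝ) := by
    intro p hp
    rw [abs_mul]
    calc |g i p| * |ψ p| ≤ |g i p| * 1 := mul_le_mul_of_nonneg_left (hψ1 p) (abs_nonneg _)
      _ ≤ _ := by rw [mul_one]; exact (hgb p hp).1
  refine (hCO S' (fun p => g i p * ψ p) φ N hφ hN).trans ?_
  refine mul_le_mul_of_nonneg_left ?_ (by positivity)
  have hS'PS : S' ⊆ PS z y := filter_subset _ _
  have hsq : ∑ p ∈ S', (g i p * ψ p) ^ 2 ≤ 1 := by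
    refine le_trans ?_ (sum_inv_sq z y (by have := hB.z2; omega))
    refine (sum_le_sum fun p hp => ?_).trans
      (sum_le_sum_of_subset_of_nonneg hS'PS fun _ _ _ => by positivity)
    have h1 := hx1 p (hS'PS hp)
    rw [← sq_abs]
    calc |g i p * ψ p| ^ 2 ≤ (1 / (p : ℝ)) ^ 2 := pow_le_pow_left₀ (abs_nonneg _) h1 2
      _ = _ := by rw [div_pow, one_pow]
  have hsplit := Finset.sum_filter_add_sum_filter_not (PS z y) (fun p => p ∣ R)
      (fun p => g i p * ψ p)
  have h1 : |∑ p ∈ (PS z y).filter (fun p => p ∣ R), g i p * ψ p| ≤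
      ∑ p ∈ (PS z y).filter (fun p => p ∣ R), 1 / (p : ℝ) :=
    (abs_sum_le_sum_abs _ _).trans (sum_le_sum fun p hp => hx1 p (mem_filter.1 hp).1)
  have hexp : |∑ p ∈ S', g i p * ψ p| ≤
      B + ∑ p ∈ (PS z y).filter (fun p => p ∣ R), 1 / (p : ℝ) := by
    have hb' : |∑ p ∈ PS z y, g i p * ψ p| ≤ B := hb
    have e1 : ∑ p ∈ S', g i p * ψ p = ∑ p ∈ PS z y, g i p * ψ p -
        ∑ p ∈ (PS z y).filter (fun p => p ∣ R), g i p * ψ p := by linarith
    rw [e1]
    exact (abs_sub _ _).trans (add_le_add hb' h1)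
  have hhh : Real.exp (∑ p ∈ (PS z y).filter (fun p => p ∣ R), 1 / (p : ℝ)) ≤ hh R := by
    rw [Real.exp_sum]
    unfold hh
    have hsub : (PS z y).filter (fun p => p ∣ R) ⊆ R.primeFactors := by
      intro p hp
      rw [mem_filter] at hp
      exact Nat.mem_primeFactors.2 ⟨Pool.Agent.W655.RK.PS_prime hp.1, hp.2, hR⟩
    calc ∏ p ∈ (PS z y).filter (fun p => p ∣ R), Real.exp (1 / (p : ℝ))
        ≤ ∏ p ∈ (PS z y).filter (fun p => p ∣ R), (1 + 2 / (p : ℝ)) := by
          refine Finset.prod_le_prod (fun p _ => (Real.exp_pos _).le) fun p hp => ?_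
          have h2 := (hgb p (mem_filter.1 hp).1).2
          have hp0 : (0:ℝ) < p := by linarith
          have h3 : 1 / (p : ℝ) ≤ 1 / 2 := by
            rw [div_le_div_iff₀ hp0 (by norm_num)]
            linarith
          refine (Pool.Agent.W655.RK.exp_small _ (by positivity) h3).trans (le_of_eq ?_)
          ring
      _ ≤ ∏ p ∈ R.primeFactors, (1 + 2 / (p : ℝ)) := by
          refine Finset.prod_le_prod_of_subset_of_one_le hsub (fun p _ => by positivity)
            fun p _ _ => ?_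
          have : (0:ℝ) ≤ 2 / (p : ℝ) := by positivity
          linarith
  calc Real.exp (|∑ p ∈ S', g i p * ψ p| + ∑ p ∈ S', (g i p * ψ p) ^ 2)
      ≤ Real.exp ((B + 1) + ∑ p ∈ (PS z y).filter (fun p => p ∣ R), 1 / (p : ℝ)) :=
        Real.exp_le_exp.2 (by linarith)
    _ = Real.exp (B + 1) * Real.exp (∑ p ∈ (PS z y).filter (fun p => p ∣ R), 1 / (p : ℝ)) :=
        Real.exp_add _ _
    _ ≤ _ := mul_le_mul_of_nonneg_left hhh (Real.exp_pos _).le

/-- the sum over one large variable with a good character -/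
lemma innerF (hCO : S_COEF) (hB : Bw g e c z C) (hF : ∀ n, |F n| ≤ 1) {N : ℕ}
    (hN : ∀ n, F n ≠ 0 → ∀ a, n a ≤ N) (i : ι) (hL : L i i = false) {y V Y : ℕ} (hy : z < y)
    (hV : 2 ≤ V) (hVY : V ≤ Y) {d : ι → ℕ} (hd : ∀ b, d b ∈ (PP z y).divisors) {B : ℝ}
    (hb : ∀ t, |∑ p ∈ PS z y, g i p * (Jr p (lk L i d) * x4 t p)| ≤ B) :
    |∑ m ∈ (PP z y).divisors.filter (fun m => V < m ∧ m ≤ Y),
        HF g L t F (Function.update d i m)| ≤
      (∏ b ∈ univ.erase i, ah g b (d b)) *
        ((N + 1) * Real.exp (B + 1) + C * Real.log V +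
          C * Real.exp (-(Real.log Y / Real.log y)) * (Real.log y) ^ 2) := by
  set φ : ℕ → ℝ := fun u => F (fun a => cnt t (Function.update d i 1) a +
    if t i = a then u else 0) with hφd
  have hφ : ∀ u, |φ u| ≤ 1 := fun u => hF _
  have hφN : ∀ u, N < u → φ u = 0 := by
    intro u hu
    by_contra hne
    have := hN _ hne (t i)
    simp only [if_true] at this
    omega
  have hHF : ∀ m, HF g L t F (Function.update d i m) =
      HG g L (Function.update d i m) * φ m.primeFactors.card := by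
    intro m
    unfold HF
    rw [cnt_update]
  have hC0 : 0 ≤ C := zero_le_one.trans hB.C1
  have hV' : 0 ≤ Real.log V := Real.log_natCast_nonneg V
  have hP0 : 0 ≤ ∏ b ∈ univ.erase i, ah g b (d b) := prod_nonneg fun b _ => ah_nonneg _ _ _
  have hB0 : 0 ≤ (N + 1) * Real.exp (B + 1) + C * Real.log V +
      C * Real.exp (-(Real.log Y / Real.log y)) * (Real.log y) ^ 2 := by positivity
  simp only [hHF]
  rcases HG_update (g := g) i hL hB.z2 hd with h | ⟨hcop, τ, ht⟩
  · rw [sum_eq_zero fun m _ => by rw [h m, zero_mul], abs_zero]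
    exact mul_nonneg hP0 hB0
  · set R := ∏ b ∈ univ.erase i, d b with hR
    set P := ∏ b ∈ univ.erase i, gg g b (d b) with hP
    set f : ℕ → ℝ := fun m => gg g i m * (Jr m (lk L i d) * x4 τ m) * φ m.primeFactors.card
      with hf
    have hRne : R ≠ 0 := prod_ne_zero_iff.2 fun b _ => dv_ne_zero (hd b)
    have h1 : ∑ m ∈ (PP z y).divisors.filter (fun m => V < m ∧ m ≤ Y),
        HG g L (Function.update d i m) * φ m.primeFactors.card =
        P * RR L (fun _ => 1) i d * ∑ m ∈ ((PP z y).divisors.filter (fun m => m.Coprime R)).filter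
          (fun m => V < m ∧ m ≤ Y), f m := by
      rw [filter_filter, mul_sum]
      have h2 : (PP z y).divisors.filter (fun m => m.Coprime R ∧ V < m ∧ m ≤ Y) =
          ((PP z y).divisors.filter (fun m => V < m ∧ m ≤ Y)).filter (fun m => m.Coprime R) := by
        rw [filter_filter]
        apply filter_congr
        intro m _
        tauto
      rw [h2]
      symm
      rw [sum_filter]
      apply sum_congr rfl
      intro m hm
      rw [ht m (mem_filter.1 hm).1]
      split_ifs
      · rw [hf]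
        ring
      · rw [zero_mul]
    set D := (PP z y).divisors.filter (fun m => m.Coprime R) with hD
    have hDs : D ⊆ (PP z y).divisors := filter_subset _ _
    have h3 : ∑ m ∈ D.filter (fun m => V < m ∧ m ≤ Y), f m =
        ∑ m ∈ D, f m - ∑ m ∈ D.filter (fun m => m ≤ V), f m - ∑ m ∈ D.filter (fun m => Y < m), f m := by
      have e1 : ∑ m ∈ D.filter (fun m => V < m ∧ m ≤ Y), f m + ∑ m ∈ D.filter (fun m => Y < m), f m =
          ∑ m ∈ D.filter (fun m => ¬ m ≤ V), f m := by
        rw [← sum_union]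
        · apply sum_congr _ (fun _ _ => rfl)
          ext m
          simp only [mem_union, mem_filter]
          constructor
          · rintro (⟨h1, h2, h3⟩ | ⟨h1, h2⟩)
            · exact ⟨h1, by omega⟩
            · exact ⟨h1, by omega⟩
          · rintro ⟨h1, h2⟩
            by_cases h3 : m ≤ Y
            · exact Or.inl ⟨h1, by omega, h3⟩
            · exact Or.inr ⟨h1, by omega⟩
        · rw [disjoint_filter]
          intro m _ h1 h2
          omega
      have e2 := sum_filter_add_sum_filter_not D (fun m => m ≤ V) f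
      linarith
    have hfa : ∀ m ∈ (PP z y).divisors, |f m| ≤ ah g i m := by
      intro m hm
      rw [hf]
      simp only
      rw [mul_assoc, abs_mul]
      have : |Jr m (lk L i d) * x4 τ m * φ m.primeFactors.card| ≤ 1 := by
        rw [abs_mul, abs_mul]
        exact mul_le_one₀ (mul_le_one₀ (abs_Jr_le _ _) (abs_nonneg _) (abs_x4_le _ _))
          (abs_nonneg _) (hφ _)
      calc |gg g i m| * |Jr m (lk L i d) * x4 τ m * φ m.primeFactors.card| ≤ |gg g i m| * 1 :=
            mul_le_mul_of_nonneg_left this (abs_nonneg _)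
        _ ≤ ah g i m := by rw [mul_one]; exact abs_le_ah g i m
    have h4 : |∑ m ∈ D.filter (fun m => m ≤ V), f m| ≤ C * Real.log V := by
      refine (abs_sum_le_sum_abs _ _).trans ?_
      refine le_trans ?_ (hB.F2 i y V hy hV)
      calc ∑ m ∈ D.filter (fun m => m ≤ V), |f m| ≤ ∑ m ∈ D.filter (fun m => m ≤ V),
            ah g i m := sum_le_sum fun m hm => hfa m (hDs (mem_filter.1 hm).1)
        _ ≤ _ := sum_le_sum_of_subset_of_nonneg (filter_subset_filter _ hDs)
          fun m _ _ => ah_nonneg _ _ _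
    have h5 : |∑ m ∈ D.filter (fun m => Y < m), f m| ≤
        C * Real.exp (-(Real.log Y / Real.log y)) * (Real.log y) ^ 2 := by
      refine (abs_sum_le_sum_abs _ _).trans ?_
      refine le_trans ?_ (hB.F3 i y Y hy (by omega))
      calc ∑ m ∈ D.filter (fun m => Y < m), |f m| ≤ ∑ m ∈ D.filter (fun m => Y < m),
            ah g i m := sum_le_sum fun m hm => hfa m (hDs (mem_filter.1 hm).1)
        _ ≤ _ := sum_le_sum_of_subset_of_nonneg (filter_subset_filter _ hDs)
          fun m _ _ => ah_nonneg _ _ _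
    have h6 : |∑ m ∈ D, f m| ≤ (N + 1) * (Real.exp (B + 1) * hh R) :=
      eulerF hCO hB i τ hRne (hb τ) hφ hφN
    have h7 : hh R ≤ ∏ b ∈ univ.erase i, hh (d b) :=
      hh_prod_le _ _ fun b _ => dv_ne_zero (hd b)
    have h8 : (1 : ℝ) ≤ ∏ b ∈ univ.erase i, hh (d b) := by
      calc (1 : ℝ) = ∏ b ∈ univ.erase i, (1 : ℝ) := by simp
        _ ≤ _ := prod_le_prod (fun _ _ => zero_le_one) fun b _ => one_le_hh _
    have hRR := abs_RR_le L (fun _ => 1) i d
    have hah : ∏ b ∈ univ.erase i, ah g b (d b) = |P| * ∏ b ∈ univ.erase i, hh (d b) := by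
      unfold ah
      rw [prod_mul_distrib, hP, abs_prod]
    rw [h1, abs_mul, abs_mul, hah]
    set H := ∏ b ∈ univ.erase i, hh (d b) with hH
    have h9 : |∑ m ∈ D.filter (fun m => V < m ∧ m ≤ Y), f m| ≤
        H * ((N + 1) * Real.exp (B + 1) + C * Real.log V +
          C * Real.exp (-(Real.log Y / Real.log y)) * (Real.log y) ^ 2) := by
      rw [h3]
      have a1 : |∑ m ∈ D, f m - ∑ m ∈ D.filter (fun m => m ≤ V), f m -
          ∑ m ∈ D.filter (fun m => Y < m), f m| ≤ |∑ m ∈ D, f m| +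
          |∑ m ∈ D.filter (fun m => m ≤ V), f m| + |∑ m ∈ D.filter (fun m => Y < m), f m| := by
        refine (abs_sub _ _).trans ?_
        have := abs_sub (∑ m ∈ D, f m) (∑ m ∈ D.filter (fun m => m ≤ V), f m)
        linarith
      have b1 : 0 ≤ (N + 1) * Real.exp (B + 1) := by positivity
      have b2 : 0 ≤ C * Real.log V := by positivity
      have b3 : 0 ≤ C * Real.exp (-(Real.log Y / Real.log y)) * (Real.log y) ^ 2 := by positivity
      have a2 : |∑ m ∈ D, f m| ≤ H * ((N + 1) * Real.exp (B + 1)) := by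
        refine h6.trans ?_
        rw [← mul_assoc, mul_comm]
        exact mul_le_mul_of_nonneg_right h7 b1
      have a3 := le_mul_of_one_le_left b2 h8
      have a4 := le_mul_of_one_le_left b3 h8
      calc _ ≤ _ := a1
        _ ≤ H * ((N + 1) * Real.exp (B + 1)) + H * (C * Real.log V) +
            H * (C * Real.exp (-(Real.log Y / Real.log y)) * (Real.log y) ^ 2) := by linarith
        _ = _ := by ring
    calc |P| * |RR L (fun _ => 1) i d| * |∑ m ∈ D.filter (fun m => V < m ∧ m ≤ Y), f m|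
        ≤ |P| * 1 * (H * ((N + 1) * Real.exp (B + 1) + C * Real.log V +
          C * Real.exp (-(Real.log Y / Real.log y)) * (Real.log y) ^ 2)) := by
          apply mul_le_mul (mul_le_mul_of_nonneg_left hRR (abs_nonneg _)) h9 (abs_nonneg _)
          positivity
      _ = _ := by ring

/-- the sum over the variables with a good character -/
lemma char_caseF (hCO : S_COEF) (hB : Bw g e c z C) (hF : ∀ n, |F n| ≤ 1) {N : ℕ}
    (hN : ∀ n, F n ≠ 0 → ∀ a, n a ≤ N) (i : ι) (hL : L i i = false) {y V Y : ℕ} (hy : z < y)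
    (hV : 2 ≤ V) (hVY : V ≤ Y) {s : ι → Finset ℕ} (ht : ∀ b, s b ⊆ (PP z y).divisors)
    (hti : s i = (PP z y).divisors.filter (fun m => V < m ∧ m ≤ Y)) {B : ℝ}
    (hlk : ∀ d ∈ Fintype.piFinset (Function.update s i {1}),
      ∀ t, |∑ p ∈ PS z y, g i p * (Jr p (lk L i d) * x4 t p)| ≤ B) :
    |∑ d ∈ Fintype.piFinset s, HF g L t F d| ≤
      (∏ b ∈ univ.erase i, ∑ m ∈ s b, ah g b m) *
        ((N + 1) * Real.exp (B + 1) + C * Real.log V +
          C * Real.exp (-(Real.log Y / Real.log y)) * (Real.log y) ^ 2) := by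
  rw [sum_update s i]
  refine (abs_sum_le_sum_abs _ _).trans ?_
  rw [← sum_others i s (fun b m => ah g b m), sum_mul]
  apply sum_le_sum
  intro d hd
  have hd' : ∀ b, d b ∈ (PP z y).divisors := by
    intro b
    have := Fintype.mem_piFinset.1 hd b
    by_cases hb : b = i
    · subst hb
      rw [Function.update_self, mem_singleton] at this
      rw [this]
      exact one_mem_dv z y
    · rw [Function.update_of_ne hb] at this
      exact ht b this
  rw [hti]
  exact innerF hCO hB hF hN i hL hy hV hVY hd' (hlk d hd)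

end Pool.Agent.L0h5.TU
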