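import Pool.Agent.L0h5.TU.A1

/-!
# The truncated abstract bound: two linked large variables, the trivial cases
-/

set_option autoImplicit false

namespace Pool.Agent.L0h5.TU

open Finset Pool.Agent.W262.RK Pool.Agent.W262.RK.AT Pool.Agent.L0h5.AG

open Pool.Agent.L0h5.TT (psi LL S_COEF)

variable {ι J : Type} [Fintype ι] [DecidableEq ι] [Fintype J] [DecidableEq J]

variable {g : ι → ℕ → ℝ} {e : ι → ℝ} {L : ι → ι → Bool} {c z : ℕ} {C : ℝ} {t : ι → J}
  {F : (J → ℕ) → ℝ}

/-- the summand as a function of two linked variables, by the number of the primes of the first -/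
lemma HF_pair (hF : ∀ n, |F n| ≤ 1) {N : ℕ} (hN : ∀ n, F n ≠ 0 → ∀ a, n a ≤ N)
    (g : ι → ℕ → ℝ) (t : ι → J) {i j : ι} (hij : i ≠ j) (hLi : L i i = false)
    (hL1 : L i j = true) (hL2 : L j i = false) {y : ℕ} {e : ι → ℕ}
    (he : ∀ b, e b ∈ (PP z y).divisors) :
    ∃ (q : ℝ) (a b : ℕ → ℕ → ℝ), |q| ≤ ∏ k ∈ (univ.erase i).erase j, |gg g k (e k)| ∧
      (∀ u m, |a u m| ≤ 1) ∧ (∀ u m, |b u m| ≤ 1) ∧
      ∀ m ∈ (PP z y).divisors, ∀ n ∈ (PP z y).divisors,
        HF g L t F (Function.update (Function.update e j n) i m) =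
          ∑ u ∈ range (N + 1), q * (gg g i m * a u m) * (gg g j n * b u n) * Jr m n := by
  obtain ⟨q, a, b, hq, ha, hb, h⟩ := HG_pair (L := L) g hij hLi hL1 hL2 he
  set Φ : ℕ → ℕ → ℝ := fun u v => F (fun s => (cnt t (Function.update (Function.update e i 1) j 1) s
    + if t j = s then v else 0) + if t i = s then u else 0) with hΦ
  refine ⟨q, fun u m => a m * if m.primeFactors.card = u then 1 else 0,
    fun u n => b n * Φ u n.primeFactors.card, hq, fun u m => ?_, fun u n => ?_,
    fun m hm n hn => ?_⟩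
  · rw [abs_mul]
    refine mul_le_one₀ (ha m) (abs_nonneg _) ?_
    split_ifs <;> simp
  · rw [abs_mul]
    exact mul_le_one₀ (hb n) (abs_nonneg _) (hF _)
  · have hcnt : F (cnt t (Function.update (Function.update e j n) i m)) =
        Φ m.primeFactors.card n.primeFactors.card := by
      rw [cnt_update, Function.update_comm hij.symm, cnt_update]
    have hsum : ∑ u ∈ range (N + 1), (if m.primeFactors.card = u then (1 : ℝ) else 0) *
        Φ u n.primeFactors.card = Φ m.primeFactors.card n.primeFactors.card := by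
      simp only [ite_mul, one_mul, zero_mul]
      rw [sum_ite_eq]
      split_ifs with h1
      · rfl
      · rw [mem_range] at h1
        by_contra hne
        have := hN _ (Ne.symm hne) (t i)
        simp only [if_true] at this
        omega
    unfold HF
    rw [h m hm n hn, hcnt, ← hsum, mul_sum]
    refine sum_congr rfl fun u _ => ?_
    ring

lemma pair_innerF (hB : Bw g e c z C) (hF : ∀ n, |F n| ≤ 1) {N : ℕ}
    (hN : ∀ n, F n ≠ 0 → ∀ a, n a ≤ N) {C2 : ℝ} {E2 : ℕ} (h2 : BW C2 E2) {i j : ι} (hij : i ≠ j)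
    (hLi : L i i = false) (hL1 : L i j = true) (hL2 : L j i = false) {y V Y : ℕ} (hV : 2 ≤ V)
    (hVY : V ≤ Y) {d : ι → ℕ} (hd : ∀ b, d b ∈ (PP z y).divisors) :
    |∑ n ∈ lg z y V Y, ∑ m ∈ lg z y V Y,
        HF g L t F (Function.update (Function.update d j n) i m)| ≤
      (∏ k ∈ (univ.erase i).erase j, |gg g k (d k)|) *
        ((N + 1) * (C2 * (Real.log Y) ^ E2 * (V : ℝ) ^ (-(1 / 6 : ℝ)))) := by
  classical
  obtain ⟨q, a, b, hq, ha, hb, h⟩ := HF_pair hF hN g t hij hLi hL1 hL2 hd
  have hP0 : 0 ≤ ∏ k ∈ (univ.erase i).erase j, |gg g k (d k)| :=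
    prod_nonneg fun k _ => abs_nonneg _
  set a' : ℕ → ℕ → ℝ := fun u m => if m ∈ lg z y V Y then gg g i m * a u m else 0 with ha'
  set b' : ℕ → ℕ → ℝ := fun u m => if m ∈ lg z y V Y then gg g j m * b u m else 0 with hb'
  have hsub : lg z y V Y ⊆ Ioc V Y := by
    intro m hm
    rw [mem_Ioc]
    exact (mem_filter.1 hm).2
  have hDv : ∀ m ∈ lg z y V Y, m ∈ (PP z y).divisors := fun m hm => (mem_filter.1 hm).1
  have bd : ∀ (k : ι) (f : ℕ → ℝ), (∀ m, |f m| ≤ 1) → ∀ m,
      |if m ∈ lg z y V Y then gg g k m * f m else 0| ≤ 1 / (m : ℝ) := by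
    intro k f hf m
    split_ifs with hm
    · rw [abs_mul]
      exact (mul_le_of_le_one_right (abs_nonneg _) (hf m)).trans
        (abs_gg_le hB k (hDv m hm))
    · simp
  have od : ∀ (k : ι) (f : ℕ → ℝ) (m : ℕ),
      (if m ∈ lg z y V Y then gg g k m * f m else 0) ≠ 0 → Odd m ∧ Squarefree m := by
    intro k f m hm
    by_cases h1 : m ∈ lg z y V Y
    · exact ⟨dv_odd hB.z2 (hDv m h1), dv_squarefree (hDv m h1)⟩
    · rw [if_neg h1] at hm
      exact absurd rfl hm
  have hmain := fun u => h2 V Y hV hVY (a' u) (b' u) (bd i (a u) (ha u)) (bd j (b u) (hb u))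
    (od i (a u)) (od j (b u))
  have heq : ∑ n ∈ lg z y V Y, ∑ m ∈ lg z y V Y,
      HF g L t F (Function.update (Function.update d j n) i m) =
      ∑ u ∈ range (N + 1), q * ∑ m ∈ Ioc V Y, ∑ n ∈ Ioc V Y, a' u m * b' u n * Jr m n := by
    rw [sum_comm]
    have e1 : ∀ u, ∑ m ∈ Ioc V Y, ∑ n ∈ Ioc V Y, a' u m * b' u n * Jr m n =
        ∑ m ∈ lg z y V Y, ∑ n ∈ lg z y V Y, a' u m * b' u n * Jr m n := by
      intro u
      rw [← sum_subset hsub]
      · apply sum_congr rfl
        intro m _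
        rw [← sum_subset hsub]
        intro n _ hn
        rw [hb']
        simp only
        rw [if_neg hn]
        ring
      · intro m _ hm
        apply sum_eq_zero
        intro n _
        rw [ha']
        simp only
        rw [if_neg hm]
        ring
    have e2 : ∀ m ∈ lg z y V Y, ∑ n ∈ lg z y V Y,
        HF g L t F (Function.update (Function.update d j n) i m) =
        ∑ u ∈ range (N + 1), ∑ n ∈ lg z y V Y, q * (a' u m * b' u n * Jr m n) := by
      intro m hm
      rw [sum_comm]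
      refine sum_congr rfl fun n hn => ?_
      rw [h m (hDv m hm) n (hDv n hn)]
      refine sum_congr rfl fun u _ => ?_
      rw [ha', hb']
      simp only
      rw [if_pos hm, if_pos hn]
      ring
    rw [sum_congr rfl e2, sum_comm]
    refine sum_congr rfl fun u _ => ?_
    rw [e1, mul_sum]
    refine sum_congr rfl fun m _ => ?_
    rw [mul_sum]
  rw [heq]
  have hQ0 : 0 ≤ C2 * (Real.log Y) ^ E2 * (V : ℝ) ^ (-(1 / 6 : ℝ)) :=
    (abs_nonneg _).trans (hmain 0)
  calc |∑ u ∈ range (N + 1), q * ∑ m ∈ Ioc V Y, ∑ n ∈ Ioc V Y, a' u m * b' u n * Jr m n|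
      ≤ ∑ u ∈ range (N + 1), (∏ k ∈ (univ.erase i).erase j, |gg g k (d k)|) *
        (C2 * (Real.log Y) ^ E2 * (V : ℝ) ^ (-(1 / 6 : ℝ))) := by
        refine (abs_sum_le_sum_abs _ _).trans (sum_le_sum fun u _ => ?_)
        rw [abs_mul]
        exact mul_le_mul hq (hmain u) (abs_nonneg _) hP0
    _ = _ := by
        rw [sum_const, card_range, nsmul_eq_mul]
        push_cast
        ring

/-- two linked large variables -/
lemma pair_caseF (hB : Bw g e c z C) (hF : ∀ n, |F n| ≤ 1) {N : ℕ}
    (hN : ∀ n, F n ≠ 0 → ∀ a, n a ≤ N) {C2 : ℝ} {E2 : ℕ} (hC2 : 0 ≤ C2) (h2 : BW C2 E2) {i j : ι}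
    (hij : i ≠ j) (hLi : L i i = false) (hL1 : L i j = true) (hL2 : L j i = false)
    {y V Y : ℕ} (hy : z < y) (hV : 2 ≤ V) (hVY : V ≤ Y) {s : ι → Finset ℕ}
    (ht : ∀ b, s b ⊆ (PP z y).divisors) (hti : s i = lg z y V Y) (htj : s j = lg z y V Y) :
    |∑ d ∈ Fintype.piFinset s, HF g L t F d| ≤
      (C * Real.log y) ^ (Fintype.card ι) *
        ((N + 1) * (C2 * (Real.log Y) ^ E2 * (V : ℝ) ^ (-(1 / 6 : ℝ)))) := by
  classical
  have hC0 : 0 ≤ C := zero_le_one.trans hB.C1
  have hly : 1 ≤ Real.log y := one_le_log hB.z2 hy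
  have hlY : 0 ≤ Real.log Y := Real.log_natCast_nonneg Y
  rw [sum_update s i, sum_update (Function.update s i {1}) j, Function.update_of_ne hij.symm, hti, htj]
  refine (abs_sum_le_sum_abs _ _).trans ?_
  have hQ : 0 ≤ (N + 1) * (C2 * (Real.log Y) ^ E2 * (V : ℝ) ^ (-(1 / 6 : ℝ))) := by positivity
  have hstep : ∀ e ∈ Fintype.piFinset (Function.update (Function.update s i {1}) j {1}),
      |∑ n ∈ lg z y V Y, ∑ m ∈ lg z y V Y,
        HF g L t F (Function.update (Function.update e j n) i m)| ≤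
      (∏ k ∈ univ.erase j, (if k = i then 1 else |gg g k (e k)|)) *
        ((N + 1) * (C2 * (Real.log Y) ^ E2 * (V : ℝ) ^ (-(1 / 6 : ℝ)))) := by
    intro e he
    have he' : ∀ b, e b ∈ (PP z y).divisors := by
      intro b
      have := Fintype.mem_piFinset.1 he b
      by_cases hb : b = j
      · subst hb
        rw [Function.update_self, mem_singleton] at this
        rw [this]
        exact one_mem_dv z y
      · rw [Function.update_of_ne hb] at this
        by_cases hb' : b = i
        · subst hb'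
          rw [Function.update_self, mem_singleton] at this
          rw [this]
          exact one_mem_dv z y
        · rw [Function.update_of_ne hb'] at this
          exact ht b this
    refine (pair_innerF hB hF hN h2 hij hLi hL1 hL2 hV hVY he').trans ?_
    apply mul_le_mul_of_nonneg_right _ hQ
    apply le_of_eq
    have him : i ∈ univ.erase j := mem_erase.2 ⟨hij, mem_univ i⟩
    rw [← mul_prod_erase _ _ him, if_pos rfl, one_mul]
    have : (univ.erase i).erase j = (univ.erase j).erase i := by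
      ext k
      simp only [mem_erase, mem_univ, and_true]
      tauto
    rw [this]
    apply prod_congr rfl
    intro k hk
    rw [if_neg (mem_erase.1 hk).1]
  refine (sum_le_sum hstep).trans ?_
  rw [← sum_mul, sum_others j (Function.update s i {1}) (fun k m => if k = i then 1 else |gg g k m|)]
  apply mul_le_mul_of_nonneg_right _ hQ
  have hCl : 1 ≤ C * Real.log y := by nlinarith [hB.C1]
  have hf : ∀ k ∈ univ.erase j, ∑ m ∈ Function.update s i {1} k,
      (if k = i then 1 else |gg g k m|) ≤ C * Real.log y := by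
    intro k _
    by_cases hk : k = i
    · subst hk
      rw [Function.update_self]
      simpa using hCl
    · rw [Function.update_of_ne hk]
      simp only [if_neg hk]
      calc ∑ m ∈ s k, |gg g k m| ≤ ∑ m ∈ (PP z y).divisors, |gg g k m| :=
            sum_le_sum_of_subset_of_nonneg (ht k) fun m _ _ => abs_nonneg _
        _ ≤ ∑ m ∈ (PP z y).divisors, ah g k m := sum_le_sum fun m _ => abs_le_ah g k m
        _ ≤ C * Real.log y := hB.F0 k y hy
  have hf0 : ∀ k ∈ univ.erase j, 0 ≤ ∑ m ∈ Function.update s i {1} k,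
      (if k = i then 1 else |gg g k m|) := by
    intro k _
    apply sum_nonneg
    intro m _
    split_ifs
    · exact zero_le_one
    · exact abs_nonneg _
  calc ∏ k ∈ univ.erase j, ∑ m ∈ Function.update s i {1} k, (if k = i then 1 else |gg g k m|)
      ≤ ∏ k ∈ univ.erase j, (C * Real.log y) := prod_le_prod hf0 hf
    _ = (C * Real.log y) ^ (univ.erase j).card := by rw [prod_const]
    _ ≤ (C * Real.log y) ^ (Fintype.card ι) := by
      apply pow_le_pow_right₀ hCl
      exact (card_le_card (erase_subset _ _)).trans (le_of_eq card_univ)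

/-- a huge variable -/
lemma tail_caseF (hB : Bw g e c z C) (A : ℕ) {K : ℝ} (hK : 0 ≤ K) (π : ι → Fin 4) {k : ι}
    (hk : π k = 3) : ∃ C' : ℝ, ∀ y, z < y → ∀ F : (J → ℕ) → ℝ, (∀ n, |F n| ≤ 1) →
      |∑ d ∈ Fintype.piFinset (fun b => cell z y (VV A (Real.log y)) (YY A (Real.log y)) (π b)),
        HF g L t F d| ≤ C' * (Real.log y) ^ K := by
  have hC0 : 0 ≤ C := zero_le_one.trans hB.C1
  refine ⟨C ^ (Fintype.card ι + 1) * (Fintype.card ι + 2).factorial, fun y hy F hF => ?_⟩
  have hly := one_le_log hB.z2 hy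
  have hly0 : 0 < Real.log y := by linarith
  set l := Real.log y with hl
  set V := VV A l with hV
  set Y := YY A l with hY
  refine (trivF hF _ _ _ _).trans ?_
  rw [← mul_prod_erase univ _ (mem_univ k), hk]
  have h2 : ∑ m ∈ cell z y V Y 3, ah g k m ≤ C * Real.exp (-l) * l ^ 2 := by
    have hV3 := three_le_VV A l
    have hVY := VV_le_YY A l
    calc ∑ m ∈ cell z y V Y 3, ah g k m
        ≤ ∑ m ∈ (PP z y).divisors.filter (fun d => Y < d), ah g k m := by
          apply sum_le_sum_of_subset_of_nonneg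
          · intro m hm
            rw [mem_filter]
            exact ⟨cell_sub _ _ _ _ _ hm, cell_three hm⟩
          · intro m _ _
            exact ah_nonneg _ _ _
      _ ≤ C * Real.exp (-(Real.log Y / Real.log y)) * (Real.log y) ^ 2 :=
          hB.F3 k y Y hy (by omega)
      _ ≤ C * Real.exp (-l) * l ^ 2 := by
          apply mul_le_mul_of_nonneg_right _ (by positivity)
          apply mul_le_mul_of_nonneg_left _ hC0
          apply Real.exp_le_exp.2
          rw [neg_le_neg_iff, le_div_iff₀ hly0]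
          have := log_YY_ge A l
          nlinarith
  have h3 : ∏ b ∈ univ.erase k, ∑ m ∈ cell z y V Y (π b), ah g b m ≤
      (C * l) ^ (Fintype.card ι) := by
    have hCl : 1 ≤ C * l := by nlinarith [hB.C1]
    calc _ ≤ ∏ b ∈ univ.erase k, (C * l) := by
          apply prod_le_prod
          · intro b _
            exact sum_nonneg fun m _ => ah_nonneg _ _ _
          · intro b _
            exact cs_any hB hy V Y b (π b)
      _ = (C * l) ^ (univ.erase k).card := by rw [prod_const]
      _ ≤ _ := by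
          apply pow_le_pow_right₀ hCl
          exact (card_le_card (erase_subset _ _)).trans (le_of_eq card_univ)
  have h4 : 1 ≤ l ^ K := Real.one_le_rpow hly hK
  have h5 := exp_neg_pow (Fintype.card ι + 2) hly
  calc _ ≤ C * Real.exp (-l) * l ^ 2 * (C * l) ^ (Fintype.card ι) := by
        apply mul_le_mul h2 h3 _ (by positivity)
        exact prod_nonneg fun b _ => sum_nonneg fun m _ => ah_nonneg _ _ _
    _ = C ^ (Fintype.card ι + 1) * (Real.exp (-l) * l ^ (Fintype.card ι + 2)) := by ring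
    _ ≤ C ^ (Fintype.card ι + 1) * (Fintype.card ι + 2).factorial :=
        mul_le_mul_of_nonneg_left h5 (by positivity)
    _ ≤ _ := le_mul_of_one_le_right (by positivity) h4

/-- two linked large variables -/
lemma link_caseF (hB : Bw g e c z C) {C2 : ℝ} {E2 : ℕ} (hC2 : 0 ≤ C2) (h2 : BW C2 E2)
    (hL : ∀ i, L i i = false) {A : ℕ} (hA : 6 * (Fintype.card ι + 2 * E2 + 1) ≤ A) {K : ℝ} (hK : 0 ≤ K)
    (π : ι → Fin 4) {i j : ι} (hi : π i = 2) (hj : π j = 2) (hij : L i j ≠ L j i) :
    ∃ C' : ℝ, ∀ y, z < y → ∀ (F : (J → ℕ) → ℝ) (N : ℕ), (∀ n, |F n| ≤ 1) →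
      (∀ n, F n ≠ 0 → ∀ a, n a ≤ N) → (N : ℝ) + 1 ≤ 4 * Real.log y →
      |∑ d ∈ Fintype.piFinset (fun b => cell z y (VV A (Real.log y)) (YY A (Real.log y)) (π b)),
        HF g L t F d| ≤ C' * (Real.log y) ^ K := by
  have hC0 : 0 ≤ C := zero_le_one.trans hB.C1
  refine ⟨4 * (C ^ (Fintype.card ι) * C2 * (A + 3) ^ E2), fun y hy F N hF hN hNl => ?_⟩
  have hly := one_le_log hB.z2 hy
  have hly0 : 0 < Real.log y := by linarith
  set l := Real.log y with hl
  set V := VV A l with hV
  set Y := YY A l with hY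
  have hV3 : 3 ≤ V := three_le_VV A l
  have hVY : V ≤ Y := VV_le_YY A l
  have hne : i ≠ j := by rintro rfl; exact hij rfl
  have hc2 : ∀ b, π b = 2 → cell z y V Y (π b) = lg z y V Y := fun b hb => by
    rw [hb]; exact cell_two (by omega)
  have hmain : |∑ d ∈ Fintype.piFinset (fun b => cell z y V Y (π b)), HF g L t F d| ≤
      (C * l) ^ (Fintype.card ι) *
        ((N + 1) * (C2 * (Real.log Y) ^ E2 * (V : ℝ) ^ (-(1 / 6 : ℝ)))) := by
    rcases h1 : L i j with _ | _
    · rcases h1' : L j i with _ | _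
      · rw [h1, h1'] at hij; exact absurd rfl hij
      · exact pair_caseF hB hF hN hC2 h2 hne.symm (hL j) h1' h1 hy (by omega) hVY
          (fun b => cell_sub _ _ _ _ _) (hc2 j hj) (hc2 i hi)
    · rcases h1' : L j i with _ | _
      · exact pair_caseF hB hF hN hC2 h2 hne (hL i) h1 h1' hy (by omega) hVY
          (fun b => cell_sub _ _ _ _ _) (hc2 i hi) (hc2 j hj)
      · rw [h1, h1'] at hij; exact absurd rfl hij
  refine hmain.trans ?_
  have h3 : Real.log Y ≤ (A + 3) * l ^ 2 := log_YY_le hly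
  have h3' : 0 ≤ Real.log Y := Real.log_natCast_nonneg Y
  have h4 : (V : ℝ) ^ (-(1 / 6 : ℝ)) ≤ (l ^ (Fintype.card ι + 2 * E2 + 1))⁻¹ := by
    have h5 : l ^ (6 * (Fintype.card ι + 2 * E2 + 1)) ≤ V :=
      (pow_le_pow_right₀ hly hA).trans (VV_ge A l)
    have h6 : (0 : ℝ) < l ^ (6 * (Fintype.card ι + 2 * E2 + 1)) := by positivity
    have h7 : (V : ℝ) ^ (-(1 / 6 : ℝ)) ≤
        (l ^ (6 * (Fintype.card ι + 2 * E2 + 1))) ^ (-(1 / 6 : ℝ)) :=
      Real.rpow_le_rpow_of_nonpos h6 h5 (by norm_num)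
    refine h7.trans (le_of_eq ?_)
    rw [← Real.rpow_natCast l, ← Real.rpow_mul hly0.le, ← Real.rpow_natCast l,
      ← Real.rpow_neg hly0.le]
    congr 1
    push_cast
    ring
  have h8 : (1 : ℝ) ≤ l ^ K := Real.one_le_rpow hly hK
  calc (C * l) ^ (Fintype.card ι) *
        ((N + 1) * (C2 * (Real.log Y) ^ E2 * (V : ℝ) ^ (-(1 / 6 : ℝ))))
      ≤ (C * l) ^ (Fintype.card ι) * ((4 * l) * (C2 * ((A + 3) * l ^ 2) ^ E2 *
          (l ^ (Fintype.card ι + 2 * E2 + 1))⁻¹)) := by
        apply mul_le_mul_of_nonneg_left _ (by positivity)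
        apply mul_le_mul hNl _ (by positivity) (by positivity)
        apply mul_le_mul _ h4 (by positivity) (by positivity)
        exact mul_le_mul_of_nonneg_left (pow_le_pow_left₀ h3' h3 _) hC2
    _ = 4 * (C ^ (Fintype.card ι) * C2 * (A + 3) ^ E2) := by
        rw [mul_pow, mul_pow, ← pow_mul, pow_succ, pow_add]
        field_simp
    _ ≤ _ := le_mul_of_one_le_right (by positivity) h8

/-- all variables are 1 or large and unlinked -/
lemma diag_caseF (hB : Bw g e c z C) (A : ℕ) {K : ℝ} (π : ι → Fin 4)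
    (h3 : ∀ k, π k = 0 ∨ π k = 2) (hK : ∑ k ∈ univ.filter (fun k => π k = 2), e k ≤ K) :
    ∃ C' : ℝ, ∀ y, z < y → ∀ F : (J → ℕ) → ℝ, (∀ n, |F n| ≤ 1) →
      |∑ d ∈ Fintype.piFinset (fun b => cell z y (VV A (Real.log y)) (YY A (Real.log y)) (π b)),
        HF g L t F d| ≤ C' * (Real.log y) ^ K := by
  have hC0 : 0 ≤ C := zero_le_one.trans hB.C1
  refine ⟨C ^ (Fintype.card ι), fun y hy F hF => ?_⟩
  have hly := one_le_log hB.z2 hy
  have hly0 : 0 < Real.log y := by linarith
  set l := Real.log y with hl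
  set V := VV A l with hV
  set Y := YY A l with hY
  refine (trivF hF _ _ _ _).trans ?_
  calc ∏ k, ∑ m ∈ cell z y V Y (π k), ah g k m
      ≤ ∏ k, (C * (if π k = 2 then l ^ (e k) else 1)) := by
        apply prod_le_prod _ fun k _ => cs_diag hB hy V Y k (h3 k)
        intro k _
        exact sum_nonneg fun m _ => ah_nonneg _ _ _
    _ = C ^ (Fintype.card ι) * l ^ (∑ k ∈ univ.filter (fun k => π k = 2), e k) := by
        rw [prod_mul_distrib, prod_const, prod_ite, prod_const_one, mul_one,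
          ← Real.rpow_sum_of_pos hly0, card_univ]
    _ ≤ _ := by
        apply mul_le_mul_of_nonneg_left _ (by positivity)
        exact Real.rpow_le_rpow_of_exponent_le hly hK

end Pool.Agent.L0h5.TU
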