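import Pool.Agent.L0h5.TU.A2

/-!
# The truncated abstract bound: the cases for a fixed small tuple, the sets that are not typical
-/

set_option autoImplicit false

namespace Pool.Agent.L0h5.TU

open Finset Pool.Agent.W262.RK Pool.Agent.W262.RK.AT Pool.Agent.L0h5.AG

open Pool.Agent.L0h5.TT (psi LL S_COEF)

variable {ι J : Type} [Fintype ι] [DecidableEq ι] [Fintype J] [DecidableEq J]

variable {g : ι → ℕ → ℝ} {e : ι → ℝ} {L : ι → ι → Bool} {c z : ℕ} {C : ℝ} {t : ι → J}
  {F : (J → ℕ) → ℝ}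

/-- the sums for a fixed small tuple with a good large variable -/
lemma good_caseF (hCO : S_COEF) (hB : Bw g e c z C) (hF : ∀ n, |F n| ≤ 1) {N : ℕ}
    (hN : ∀ n, F n ≠ 0 → ∀ a, n a ≤ N) (hL : ∀ i, L i i = false) (A : ℕ) (π : ι → Fin 4)
    (hun : ∀ i j, π i = 2 → π j = 2 → L i j = L j i) {y : ℕ} (hy : z < y)
    (hNl : (N : ℝ) + 1 ≤ 4 * Real.log (VV A (Real.log y))) {d : ι → ℕ}
    (hd : ∀ b, d b ∈ (PP z y).divisors) {i : ι} (hi : π i = 2)
    (hgood : ∀ t, |∑ p ∈ PS z y, g i p * ps (lk L i d) t p| ≤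
      e i / 2 * Real.log (Real.log y)) :
    |∑ x ∈ Fintype.piFinset (fun b => if π b = 2 then
        cell z y (VV A (Real.log y)) (YY A (Real.log y)) (π b) else {d b}), HF g L t F x| ≤
      (∏ b ∈ univ.filter (fun b => π b ≠ 2), ah g b (d b)) *
        (C ^ Fintype.card ι * (3 * C + 12) *
          (Real.log y) ^ (∑ k ∈ univ.filter (fun k => π k = 2), e k - e i / 2) *
          Real.log (VV A (Real.log y))) := by
  classical
  have hC0 : 0 ≤ C := zero_le_one.trans hB.C1
  have hly := one_le_log hB.z2 hy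
  have hly0 : 0 < Real.log y := by linarith
  set l := Real.log y with hl
  set V := VV A l with hV
  set Y := YY A l with hY
  have hV3 : 3 ≤ V := three_le_VV A l
  have hVY : V ≤ Y := VV_le_YY A l
  have hlV : 1 ≤ Real.log V := one_le_log_VV A l
  set s : ι → Finset ℕ := fun b => if π b = 2 then cell z y V Y (π b) else {d b} with ht
  have htsub : ∀ b, s b ⊆ (PP z y).divisors := by
    intro b
    rw [ht]
    simp only
    split_ifs with h
    · exact cell_sub _ _ _ _ _
    · intro m hm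
      rw [mem_singleton] at hm
      rw [hm]
      exact hd b
  have hti : s i = (PP z y).divisors.filter (fun m => V < m ∧ m ≤ Y) := by
    rw [ht]
    simp only [if_pos hi, hi]
    exact cell_two (by omega)
  have hcase := char_caseF (L := L) (t := t) hCO hB hF hN i (hL i) (V := V) (Y := Y) hy (by omega) hVY htsub hti
    (B := e i / 2 * Real.log l) (by
      intro x hx τ
      have hlk : lk L i x = lk L i d := by
        unfold lk
        refine prod_congr rfl fun b hb => ?_
        rw [mem_filter, mem_erase] at hb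
        have hb2 : π b ≠ 2 := fun h => hb.2 (hun i b hi h)
        have := Fintype.mem_piFinset.1 hx b
        rw [Function.update_of_ne hb.1.1, ht] at this
        simp only [if_neg hb2, mem_singleton] at this
        exact this
      rw [hlk]
      exact hgood τ)
  refine hcase.trans ?_
  -- the product
  have hprod : ∏ b ∈ univ.erase i, ∑ m ∈ s b, ah g b m ≤
      (∏ b ∈ univ.filter (fun b => π b ≠ 2), ah g b (d b)) *
        (C ^ Fintype.card ι * l ^ (∑ k ∈ univ.filter (fun k => π k = 2), e k - e i)) := by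
    rw [← prod_filter_mul_prod_filter_not (univ.erase i) (fun b => π b ≠ 2)]
    have e1 : (univ.erase i).filter (fun b => π b ≠ 2) = univ.filter (fun b => π b ≠ 2) := by
      ext b
      simp only [mem_filter, mem_erase, mem_univ, and_true, true_and]
      constructor
      · rintro ⟨_, h⟩
        exact h
      · intro h
        exact ⟨by rintro rfl; exact h hi, h⟩
    have e2 : ∏ b ∈ (univ.erase i).filter (fun b => π b ≠ 2), ∑ m ∈ s b, ah g b m =
        ∏ b ∈ univ.filter (fun b => π b ≠ 2), ah g b (d b) := by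
      rw [e1]
      refine prod_congr rfl fun b hb => ?_
      rw [ht]
      simp only [if_neg (mem_filter.1 hb).2, sum_singleton]
    rw [e2]
    refine mul_le_mul_of_nonneg_left ?_ (prod_nonneg fun b _ => ah_nonneg _ _ _)
    have e3 : (univ.erase i).filter (fun b => ¬ π b ≠ 2) =
        (univ.filter (fun b => π b = 2)).erase i := by
      ext b
      simp only [mem_filter, mem_erase, mem_univ, and_true, true_and, not_not]
    rw [e3]
    have e4 : ∏ b ∈ (univ.filter (fun b => π b = 2)).erase i, ∑ m ∈ s b, ah g b m ≤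
        ∏ b ∈ (univ.filter (fun b => π b = 2)).erase i, (C * l ^ (e b)) := by
      refine prod_le_prod (fun b _ => sum_nonneg fun m _ => ah_nonneg _ _ _) fun b hb => ?_
      have hb2 := (mem_filter.1 (mem_erase.1 hb).2).2
      rw [ht]
      simp only [if_pos hb2]
      have := cs_diag hB hy V Y b (r := π b) (Or.inr hb2)
      rwa [if_pos hb2] at this
    refine e4.trans ?_
    rw [prod_mul_distrib, prod_const, ← Real.rpow_sum_of_pos hly0]
    refine mul_le_mul (pow_le_pow_right₀ hB.C1 ?_) (le_of_eq ?_) (by positivity) (by positivity)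
    · exact (card_le_card (subset_univ _)).trans (le_of_eq card_univ)
    · congr 1
      rw [← add_sum_erase _ _ (show i ∈ univ.filter (fun k => π k = 2) by
        rw [mem_filter]; exact ⟨mem_univ i, hi⟩)]
      ring
  have hbr : (N + 1) * Real.exp (e i / 2 * Real.log l + 1) + C * Real.log V +
      C * Real.exp (-(Real.log Y / l)) * l ^ 2 ≤ (3 * C + 12) * l ^ (e i / 2) * Real.log V := by
    have he0 := hB.e0 i
    have e1 : Real.exp (e i / 2 * Real.log l + 1) = l ^ (e i / 2) * Real.exp 1 := by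
      rw [Real.exp_add, Real.rpow_def_of_pos hly0, mul_comm (e i / 2)]
    have e2 : (1 : ℝ) ≤ l ^ (e i / 2) := Real.one_le_rpow hly (by linarith)
    have hlY : l ≤ Real.log Y / l := by
      rw [le_div_iff₀ hly0]
      have := log_YY_ge A l
      nlinarith
    have e3 : Real.exp (-(Real.log Y / l)) * l ^ 2 ≤ 2 := by
      have a1 : Real.exp (-(Real.log Y / l)) ≤ Real.exp (-l) := Real.exp_le_exp.2 (by linarith)
      have a2 := exp_neg_pow 2 hly
      have a3 : ((Nat.factorial 2 : ℕ) : ℝ) = 2 := by norm_num [Nat.factorial]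
      rw [a3] at a2
      exact (mul_le_mul_of_nonneg_right a1 (by positivity)).trans a2
    have e4 : C * Real.exp (-(Real.log Y / l)) * l ^ 2 ≤ C * 2 := by
      rw [mul_assoc]
      exact mul_le_mul_of_nonneg_left e3 hC0
    have e5 : (1 : ℝ) ≤ l ^ (e i / 2) * Real.log V := one_le_mul_of_one_le_of_one_le e2 hlV
    have e7 : Real.log V ≤ l ^ (e i / 2) * Real.log V :=
      le_mul_of_one_le_left (by positivity) e2
    have e6 : (N + 1) * Real.exp (e i / 2 * Real.log l + 1) ≤
        12 * (l ^ (e i / 2) * Real.log V) := by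
      rw [e1]
      have a1 : Real.exp 1 ≤ 3 := by have := Real.exp_one_lt_d9; linarith
      calc (N + 1) * (l ^ (e i / 2) * Real.exp 1) ≤
            (4 * Real.log V) * (l ^ (e i / 2) * 3) := by
              apply mul_le_mul hNl _ (by positivity) (by positivity)
              exact mul_le_mul_of_nonneg_left a1 (by positivity)
        _ = _ := by ring
    have e8 := mul_le_mul_of_nonneg_left e7 hC0
    have e9 := mul_le_mul_of_nonneg_left e5 (by positivity : 0 ≤ C * 2)
    calc _ ≤ 12 * (l ^ (e i / 2) * Real.log V) + C * (l ^ (e i / 2) * Real.log V) +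
          C * 2 * (l ^ (e i / 2) * Real.log V) := by linarith
      _ = _ := by ring
  have hbr0 : 0 ≤ (N + 1) * Real.exp (e i / 2 * Real.log l + 1) + C * Real.log V +
      C * Real.exp (-(Real.log Y / l)) * l ^ 2 := by positivity
  have hW0 : 0 ≤ ∏ b ∈ univ.filter (fun b => π b ≠ 2), ah g b (d b) :=
    prod_nonneg fun b _ => ah_nonneg _ _ _
  calc _ ≤ ((∏ b ∈ univ.filter (fun b => π b ≠ 2), ah g b (d b)) *
        (C ^ Fintype.card ι * l ^ (∑ k ∈ univ.filter (fun k => π k = 2), e k - e i))) *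
        ((3 * C + 12) * l ^ (e i / 2) * Real.log V) :=
        mul_le_mul hprod hbr hbr0 (by positivity)
    _ = (∏ b ∈ univ.filter (fun b => π b ≠ 2), ah g b (d b)) *
        (C ^ Fintype.card ι * (3 * C + 12) *
          (l ^ (∑ k ∈ univ.filter (fun k => π k = 2), e k - e i) * l ^ (e i / 2)) *
          Real.log V) := by ring
    _ = _ := by
        rw [← Real.rpow_add hly0]
        congr 4
        ring

/-- the sums for a fixed small tuple, trivially -/
lemma bad_caseF (hB : Bw g e c z C) (hF : ∀ n, |F n| ≤ 1) (A : ℕ) (π : ι → Fin 4) {y : ℕ} (hy : z < y) (d : ι → ℕ) :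
    |∑ x ∈ Fintype.piFinset (fun b => if π b = 2 then
        cell z y (VV A (Real.log y)) (YY A (Real.log y)) (π b) else {d b}), HF g L t F x| ≤
      (∏ b ∈ univ.filter (fun b => π b ≠ 2), ah g b (d b)) *
        (C ^ Fintype.card ι * (Real.log y) ^ (∑ k ∈ univ.filter (fun k => π k = 2), e k)) := by
  classical
  have hC0 : 0 ≤ C := zero_le_one.trans hB.C1
  have hly := one_le_log hB.z2 hy
  have hly0 : 0 < Real.log y := by linarith
  set l := Real.log y with hl
  set V := VV A l with hV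
  set Y := YY A l with hY
  refine (trivF hF _ _ _ _).trans ?_
  rw [← prod_filter_mul_prod_filter_not univ (fun b => π b ≠ 2)]
  have e2 : ∏ b ∈ univ.filter (fun b => π b ≠ 2),
      ∑ m ∈ (if π b = 2 then cell z y V Y (π b) else {d b}), ah g b m =
      ∏ b ∈ univ.filter (fun b => π b ≠ 2), ah g b (d b) := by
    refine prod_congr rfl fun b hb => ?_
    simp only [if_neg (mem_filter.1 hb).2, sum_singleton]
  rw [e2]
  refine mul_le_mul_of_nonneg_left ?_ (prod_nonneg fun b _ => ah_nonneg _ _ _)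
  have e3 : univ.filter (fun b => ¬ π b ≠ 2) = univ.filter (fun b => π b = 2) := by
    ext b
    simp
  rw [e3]
  have e4 : ∏ b ∈ univ.filter (fun b => π b = 2),
      ∑ m ∈ (if π b = 2 then cell z y V Y (π b) else {d b}), ah g b m ≤
      ∏ b ∈ univ.filter (fun b => π b = 2), (C * l ^ (e b)) := by
    refine prod_le_prod (fun b _ => sum_nonneg fun m _ => ah_nonneg _ _ _) fun b hb => ?_
    have hb2 := (mem_filter.1 hb).2
    simp only [if_pos hb2]
    have := cs_diag hB hy V Y b (r := π b) (Or.inr hb2)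
    rwa [if_pos hb2] at this
  refine e4.trans ?_
  rw [prod_mul_distrib, prod_const, ← Real.rpow_sum_of_pos hly0]
  exact mul_le_mul (pow_le_pow_right₀ hB.C1 ((card_le_card (subset_univ _)).trans
    (le_of_eq card_univ))) le_rfl (by positivity) (by positivity)

/-- the sum over a cell with powers -/
lemma cs_pow (hB : Bw g e c z C) {Cg : ℝ}
    (hg2 : ∀ i (y : ℕ), z < y → ∑ p ∈ PS z y, |g i p| ≤ e i * Real.log (Real.log y) + Cg)
    (i : ι) {ρ : ℝ} (hρ : 0 < ρ) {y : ℕ} (hy : z < y) :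
    ∑ m ∈ (PP z y).divisors, ah g i m * ρ ^ m.primeFactors.card ≤
      Real.exp (ρ * (Cg + 2)) * (Real.log y) ^ (e i * ρ) := by
  have hly := one_le_log hB.z2 hy
  have hly0 : 0 < Real.log y := by linarith
  have e1 : ∀ d ∈ (PP z y).divisors, ah g i d * ρ ^ d.primeFactors.card =
      ∏ p ∈ d.primeFactors, (|g i p| * (1 + 2 / (p : ℝ)) * ρ) := by
    intro d _
    rw [ah, gg, abs_prod, hh, ← prod_const, ← prod_mul_distrib, ← prod_mul_distrib]
  rw [sum_congr rfl e1]
  have e2 := Pool.Agent.W655.RK.sum_mult (PS z y) (fun p hp => Pool.Agent.W655.RK.PS_prime hp)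
    (fun p => |g i p| * (1 + 2 / (p : ℝ)) * ρ)
  unfold PP
  rw [e2]
  refine (Pool.Agent.W655.RK.prod_le_exp _ _ fun p _ => by positivity).trans ?_
  have e3 : ∑ p ∈ PS z y, |g i p| * (1 + 2 / (p : ℝ)) ≤
      (e i * Real.log (Real.log y) + Cg) + 2 := by
    have e4 : ∀ p ∈ PS z y, |g i p| * (1 + 2 / (p : ℝ)) ≤ |g i p| + 2 * (1 / (p : ℝ) ^ 2) := by
      intro p hp
      have hp' := mem_PS.1 hp
      have h1 := hB.g1 i p hp'.2 hp'.1.1
      have h2 : (2 * c + 3 : ℝ) ≤ p := by
        have := hB.zc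
        exact_mod_cast (by omega : 2 * c + 3 ≤ p)
      have hc0 : (0 : ℝ) ≤ c := Nat.cast_nonneg c
      have h3 : (0 : ℝ) < (p : ℝ) - c := by linarith
      have hp0 : (0 : ℝ) < p := by linarith
      have h4 : |g i p| ≤ 1 / (p : ℝ) := h1.trans (by
        rw [div_le_div_iff₀ h3 hp0]
        linarith)
      have h5 := mul_le_mul_of_nonneg_right h4 (by positivity : 0 ≤ 2 / (p : ℝ))
      calc |g i p| * (1 + 2 / (p : ℝ)) = |g i p| + |g i p| * (2 / (p : ℝ)) := by ring
        _ ≤ |g i p| + 1 / (p : ℝ) * (2 / (p : ℝ)) := by linarith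
        _ = _ := by ring
    refine (sum_le_sum e4).trans ?_
    rw [sum_add_distrib, ← mul_sum]
    have h6 := hg2 i y hy
    have h7 := sum_inv_sq z y (by have := hB.z2; omega)
    linarith
  calc Real.exp (∑ p ∈ PS z y, |g i p| * (1 + 2 / (p : ℝ)) * ρ) ≤
        Real.exp (((e i * Real.log (Real.log y) + Cg) + 2) * ρ) := by
        rw [← sum_mul]
        exact Real.exp_le_exp.2 (mul_le_mul_of_nonneg_right e3 hρ.le)
    _ = _ := by
        rw [Real.rpow_def_of_pos hly0, ← Real.exp_add]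
        congr 1
        ring

/-- the small cells with powers -/
lemma cs_pow_low (hB : Bw g e c z C) {Cg : ℝ} (hCg : 0 ≤ Cg)
    (hg2 : ∀ i (y : ℕ), z < y → ∑ p ∈ PS z y, |g i p| ≤ e i * Real.log (Real.log y) + Cg)
    (i : ι) {ρ : ℝ} (hρ : 0 < ρ) {y V Y : ℕ} (hV : 3 ≤ V) {r : Fin 4} (hr : r ≠ 3)
    (hr2 : r ≠ 2) :
    ∑ m ∈ cell z y V Y r, ah g i m * ρ ^ m.primeFactors.card ≤
      Real.exp (ρ * (Cg + 2)) * (Real.log V) ^ (e i * ρ) := by
  have hlV : 1 ≤ Real.log V := by
    rw [Real.le_log_iff_exp_le (by exact_mod_cast (by omega : 0 < V))]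
    have h1 : (3 : ℝ) ≤ V := by exact_mod_cast hV
    have h2 := Real.exp_one_lt_d9
    linarith
  have he0 := hB.e0 i
  have hmV : ∀ m ∈ cell z y V Y r, m ∈ (PP z y).divisors ∧ m ≤ V := by
    intro m hm
    refine ⟨cell_sub _ _ _ _ _ hm, ?_⟩
    have key : ∀ r : Fin 4, r ≠ 3 → r ≠ 2 → r = 0 ∨ r = 1 := by decide
    rcases key r hr hr2 with h | h
    · subst h
      have := cell_zero hm
      omega
    · subst h
      exact (cell_one hm).2
  have h0 : ∀ m, 0 ≤ ah g i m * ρ ^ m.primeFactors.card := fun m =>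
    mul_nonneg (ah_nonneg _ _ _) (by positivity)
  by_cases hzV : z < V
  · refine le_trans ?_ (cs_pow hB hg2 i hρ hzV)
    refine sum_le_sum_of_subset_of_nonneg ?_ fun m _ _ => h0 m
    intro m hm
    obtain ⟨h1, h2⟩ := hmV m hm
    have hsq : Squarefree m := dv_squarefree h1
    rw [Nat.mem_divisors]
    refine ⟨?_, PP_ne_zero z V⟩
    rw [← Nat.prod_primeFactors_of_squarefree hsq]
    unfold PP
    refine Finset.prod_dvd_prod_of_subset _ _ _ fun p hp => ?_
    have hpp := Nat.prime_of_mem_primeFactors hp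
    have hpd := Nat.dvd_of_mem_primeFactors hp
    have hpz := (dv_prime h1 hpp hpd).1
    exact mem_PS.2 ⟨⟨hpz, (Nat.le_of_dvd (Nat.pos_of_ne_zero hsq.ne_zero) hpd).trans h2⟩, hpp⟩
  · have hsub : cell z y V Y r ⊆ {1} := by
      intro m hm
      obtain ⟨h1, h2⟩ := hmV m hm
      rw [mem_singleton]
      by_contra hne
      obtain ⟨p, hpp, hpd⟩ := Nat.exists_prime_and_dvd hne
      have hpz := (dv_prime h1 hpp hpd).1
      have := Nat.le_of_dvd (Nat.pos_of_ne_zero (dv_squarefree h1).ne_zero) hpd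
      omega
    refine (sum_le_sum_of_subset_of_nonneg hsub fun m _ _ => h0 m).trans ?_
    rw [sum_singleton, ah, gg_one, hh_one]
    simp only [abs_one, mul_one, Nat.primeFactors_one, card_empty, pow_zero]
    have h3 : (1 : ℝ) ≤ Real.exp (ρ * (Cg + 2)) := Real.one_le_exp (by positivity)
    have h4 : (1 : ℝ) ≤ (Real.log V) ^ (e i * ρ) := Real.one_le_rpow hlV (by positivity)
    exact one_le_mul_of_one_le_of_one_le h3 h4

/-- the Rankin trick in the window -/
lemma win_le {δ ℓ : ℝ} (hδ0 : 0 < δ) (hδ1 : δ < 1) {n : J → ℕ} (hn : WinJ δ ℓ n)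
    {ρ : J → ℝ} (hρ : ∀ a, 0 < ρ a) :
    1 ≤ Real.exp (-(ℓ * ∑ a, psi δ (ρ a))) * ∏ a, ρ a ^ n a := by
  have h1 : ∏ a, ρ a ^ n a = Real.exp (∑ a, n a * Real.log (ρ a)) := by
    rw [Real.exp_sum]
    refine prod_congr rfl fun a _ => ?_
    rw [mul_comm, Real.exp_mul, Real.exp_log (hρ a), Real.rpow_natCast]
  rw [h1, ← Real.exp_add, mul_sum, ← sum_neg_distrib, ← sum_add_distrib]
  refine Real.one_le_exp (sum_nonneg fun a _ => ?_)
  obtain ⟨h2, h3⟩ := hn a
  unfold psi
  split_ifs with h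
  · have h4 : 0 ≤ Real.log (ρ a) := Real.log_nonneg h
    nlinarith
  · push Not at h
    have h4 : Real.log (ρ a) ≤ 0 := Real.log_nonpos (hρ a).le h.le
    nlinarith

lemma prod_cnt (t : ι → J) (ρ : J → ℝ) (d : ι → ℕ) :
    ∏ a, ρ a ^ cnt t d a = ∏ i, ρ (t i) ^ (d i).primeFactors.card := by
  unfold cnt
  have h1 : ∀ a, ρ a ^ (∑ i ∈ univ.filter (fun i => t i = a), (d i).primeFactors.card) =
      ∏ i ∈ univ.filter (fun i => t i = a), ρ (t i) ^ (d i).primeFactors.card := by
    intro a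
    rw [← prod_pow_eq_pow_sum]
    refine prod_congr rfl fun i hi => ?_
    rw [(mem_filter.1 hi).2]
  rw [prod_congr rfl fun a _ => h1 a]
  exact prod_fiberwise univ t _

/-- the patterns that are not typical -/
lemma atyp_case (hB : Bw g e c z C) {Cg : ℝ} (hCg : 0 ≤ Cg)
    (hg2 : ∀ i (y : ℕ), z < y → ∑ p ∈ PS z y, |g i p| ≤ e i * Real.log (Real.log y) + Cg)
    {δ : ℝ} (hδ0 : 0 < δ) (hδ1 : δ < 1) (A : ℕ) {K : ℝ} (π : ι → Fin 4) (h3 : ∀ k, π k ≠ 3)
    {ρ : J → ℝ} (hρ : ∀ a, 0 < ρ a)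
    (hK : ∑ i ∈ univ.filter (fun k => π k = 2), e i * ρ (t i) - ∑ a, psi δ (ρ a) < K) :
    ∃ C' : ℝ, ∀ y, z < y → ∀ F : (J → ℕ) → ℝ, (∀ n, |F n| ≤ 1) →
      (∀ n, F n ≠ 0 → WinJ δ (LL y) n) →
      |∑ d ∈ Fintype.piFinset (fun b => cell z y (VV A (Real.log y)) (YY A (Real.log y)) (π b)),
        HF g L t F d| ≤ C' * (Real.log y) ^ K := by
  classical
  set S := ∑ i ∈ univ.filter (fun k => π k = 2), e i * ρ (t i) with hS
  set Ψ := ∑ a, psi δ (ρ a) with hΨ
  obtain ⟨M, hM⟩ : ∃ M : ℕ, ∑ i : ι, e i * ρ (t i) ≤ M := exists_nat_ge _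
  obtain ⟨C1, hC1, h1⟩ := log_VV_pow_le A M (show 0 < K - (S - Ψ) by linarith)
  set D : ℝ := ∏ i : ι, Real.exp (ρ (t i) * (Cg + 2)) with hD
  have hD0 : 0 < D := prod_pos fun i _ => Real.exp_pos _
  refine ⟨D * C1, fun y hy F hF hW => ?_⟩
  have hly := one_le_log hB.z2 hy
  have hly0 : 0 < Real.log y := by linarith
  set l := Real.log y with hl
  set V := VV A l with hV
  set Y := YY A l with hY
  have hV3 : 3 ≤ V := three_le_VV A l
  have hlV : 1 ≤ Real.log V := one_le_log_VV A l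
  have hlV0 : 0 < Real.log V := by linarith
  set Q := Real.exp (-(LL y * Ψ)) with hQ
  -- the pointwise bound
  have hpt : ∀ d : ι → ℕ, |HF g L t F d| ≤
      Q * ∏ i, (ah g i (d i) * ρ (t i) ^ (d i).primeFactors.card) := by
    intro d
    have hR0 : 0 ≤ Q * ∏ i, (ah g i (d i) * ρ (t i) ^ (d i).primeFactors.card) :=
      mul_nonneg (Real.exp_pos _).le (prod_nonneg fun i _ => mul_nonneg (ah_nonneg _ _ _)
        (pow_nonneg (hρ _).le _))
    by_cases hz : F (cnt t d) = 0
    · unfold HF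
      rw [hz, mul_zero, abs_zero]
      exact hR0
    · have hw := win_le hδ0 hδ1 (hW _ hz) hρ
      rw [prod_cnt] at hw
      have h2 := abs_HF_le hF g L t d
      have h3 : 0 ≤ ∏ i, ah g i (d i) := prod_nonneg fun i _ => ah_nonneg _ _ _
      calc |HF g L t F d| ≤ (∏ i, ah g i (d i)) * 1 := by rw [mul_one]; exact h2
        _ ≤ (∏ i, ah g i (d i)) * (Real.exp (-(LL y * Ψ)) *
            ∏ i, ρ (t i) ^ (d i).primeFactors.card) := mul_le_mul_of_nonneg_left hw h3
        _ = _ := by rw [prod_mul_distrib]; ring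
  refine (abs_sum_le_sum_abs _ _).trans ((sum_le_sum fun d _ => hpt d).trans ?_)
  rw [← mul_sum, ← prod_univ_sum (fun b => cell z y V Y (π b))
    (fun i m => ah g i m * ρ (t i) ^ m.primeFactors.card)]
  have h2 : ∏ i, ∑ m ∈ cell z y V Y (π i), ah g i m * ρ (t i) ^ m.primeFactors.card ≤
      ∏ i : ι, (Real.exp (ρ (t i) * (Cg + 2)) *
        ((if π i = 2 then l ^ (e i * ρ (t i)) else 1) * (Real.log V) ^ (e i * ρ (t i)))) := by
    refine prod_le_prod (fun i _ => sum_nonneg fun m _ => mul_nonneg (ah_nonneg _ _ _)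
      (pow_nonneg (hρ _).le _)) fun i _ => ?_
    have hpos : 0 < e i * ρ (t i) := mul_pos (hB.e0 i) (hρ _)
    have h5 : (1 : ℝ) ≤ (Real.log V) ^ (e i * ρ (t i)) := Real.one_le_rpow hlV hpos.le
    by_cases hi : π i = 2
    · rw [if_pos hi]
      calc ∑ m ∈ cell z y V Y (π i), ah g i m * ρ (t i) ^ m.primeFactors.card
          ≤ ∑ m ∈ (PP z y).divisors, ah g i m * ρ (t i) ^ m.primeFactors.card :=
            sum_le_sum_of_subset_of_nonneg (cell_sub _ _ _ _ _) fun m _ _ =>
              mul_nonneg (ah_nonneg _ _ _) (pow_nonneg (hρ _).le _)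
        _ ≤ Real.exp (ρ (t i) * (Cg + 2)) * l ^ (e i * ρ (t i)) := cs_pow hB hg2 i (hρ _) hy
        _ ≤ Real.exp (ρ (t i) * (Cg + 2)) * (l ^ (e i * ρ (t i)) *
            (Real.log V) ^ (e i * ρ (t i))) :=
            mul_le_mul_of_nonneg_left (le_mul_of_one_le_right (by positivity) h5)
              (Real.exp_pos _).le
    · rw [if_neg hi, one_mul]
      exact cs_pow_low hB hCg hg2 i (hρ _) hV3 (h3 i) hi
  have h4 : ∏ i : ι, (Real.exp (ρ (t i) * (Cg + 2)) *
        ((if π i = 2 then l ^ (e i * ρ (t i)) else 1) * (Real.log V) ^ (e i * ρ (t i)))) =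
      D * (l ^ S * (Real.log V) ^ (∑ i : ι, e i * ρ (t i))) := by
    rw [prod_mul_distrib, prod_mul_distrib, prod_ite, prod_const_one, mul_one,
      ← Real.rpow_sum_of_pos hly0, ← Real.rpow_sum_of_pos hlV0]
  have h5 : (Real.log V) ^ (∑ i : ι, e i * ρ (t i)) ≤ C1 * l ^ (K - (S - Ψ)) := by
    refine le_trans ?_ (h1 l hly)
    rw [← Real.rpow_natCast]
    exact Real.rpow_le_rpow_of_exponent_le hlV hM
  have h6 : Q = l ^ (-Ψ) := by
    rw [hQ, Real.rpow_def_of_pos hly0]
    congr 1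
    unfold Pool.Agent.L0h5.TT.LL
    ring
  rw [h4] at h2
  calc Q * ∏ i, ∑ m ∈ cell z y V Y (π i), ah g i m * ρ (t i) ^ m.primeFactors.card
      ≤ Q * (D * (l ^ S * (C1 * l ^ (K - (S - Ψ))))) := by
        refine mul_le_mul_of_nonneg_left (h2.trans ?_) (Real.exp_pos _).le
        refine mul_le_mul_of_nonneg_left ?_ hD0.le
        exact mul_le_mul_of_nonneg_left h5 (by positivity)
    _ = D * C1 * (l ^ (-Ψ) * (l ^ S * l ^ (K - (S - Ψ)))) := by rw [h6]; ring
    _ = _ := by
        rw [← Real.rpow_add hly0, ← Real.rpow_add hly0]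
        congr 2
        ring

end Pool.Agent.L0h5.TU
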