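import Pool.Agent.L0h5.TU.A3

/-!
# The truncated abstract bound
-/

set_option autoImplicit false

namespace Pool.Agent.L0h5.TU

open Finset Pool.Agent.W262.RK Pool.Agent.W262.RK.AT Pool.Agent.L0h5.AG

open Pool.Agent.L0h5.TT (psi LL S_COEF)

variable {ι J : Type} [Fintype ι] [DecidableEq ι] [Fintype J] [DecidableEq J]

variable {g : ι → ℕ → ℝ} {e : ι → ℝ} {L : ι → ι → Bool} {c z : ℕ} {C : ℝ} {t : ι → J}
  {F : (J → ℕ) → ℝ}

/-- maximal unlinked large variables and a small variable different from 1 -/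
lemma max_caseF (hCO : S_COEF) (hB : Bw g e c z C) (hL : ∀ i, L i i = false) (A : ℕ) {K : ℝ} (hK0 : 0 ≤ K)
    (π : ι → Fin 4) (h3 : ∀ k, π k ≠ 3) (hun : ∀ i j, π i = 2 → π j = 2 → L i j = L j i)
    (hmax : ∀ j, π j = 1 → ∃ i, π i = 2 ∧ L i j ≠ L j i)
    (hK : ∑ k ∈ univ.filter (fun k => π k = 2), e k ≤ K) (hz : 2 ^ Fintype.card ι ≤ z)
    {n y0 : ℕ} (hX : XB g e z A n y0) (hX' : XB (fun i p => -g i p) e z A n y0) :
    ∃ C' : ℝ, ∀ y, z < y → ∀ (F : (J → ℕ) → ℝ) (N : ℕ), (∀ n, |F n| ≤ 1) →
      (∀ n, F n ≠ 0 → ∀ a, n a ≤ N) → (N : ℝ) + 1 ≤ 4 * Real.log (VV A (Real.log y)) →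
      |∑ d ∈ Fintype.piFinset (fun b => cell z y (VV A (Real.log y)) (YY A (Real.log y)) (π b)),
        HF g L t F d| ≤ C' * (Real.log y) ^ K := by
  classical
  have hC0 : 0 ≤ C := zero_le_one.trans hB.C1
  set S := ∑ k ∈ univ.filter (fun k => π k = 2), e k with hS
  choose C1 hC1 h1 using fun i => log_VV_pow_le A (Fintype.card ι + 1)
    (show 0 < e i / 2 by have := hB.e0 i; linarith)
  refine ⟨(C * Real.log (max y0 3)) ^ Fintype.card ι +
    (∑ i, C ^ Fintype.card ι * (C ^ Fintype.card ι * (3 * C + 12) * C1 i)) +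
    (∏ i : ι, ((4 * n + 1 : ℕ) : ℝ)) * C ^ Fintype.card ι, fun y hy F N hF hN hNl => ?_⟩
  have hly := one_le_log hB.z2 hy
  have hly0 : 0 < Real.log y := by linarith
  have hlK : (1 : ℝ) ≤ (Real.log y) ^ K := Real.one_le_rpow hly hK0
  have hlm : 0 ≤ Real.log (max y0 3 : ℕ) := Real.log_natCast_nonneg _
  have hlm' : 0 ≤ Real.log (max (y0 : ℝ) 3) := by
    have : ((max y0 3 : ℕ) : ℝ) = max (y0 : ℝ) 3 := by push_cast; rfl
    rw [← this]
    exact hlm
  have ha0 : 0 ≤ (C * Real.log (max (y0 : ℝ) 3)) ^ Fintype.card ι := by positivity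
  have hb0 : 0 ≤ ∑ i, C ^ Fintype.card ι * (C ^ Fintype.card ι * (3 * C + 12) * C1 i) :=
    sum_nonneg fun i _ => by have := hC1 i; positivity
  have hc0 : 0 ≤ (∏ i : ι, ((4 * n + 1 : ℕ) : ℝ)) * C ^ Fintype.card ι := by positivity
  rcases Nat.lt_or_ge y y0 with hyy | hyy
  · -- the small values
    have e1 : |∑ d ∈ Fintype.piFinset (fun b => cell z y (VV A (Real.log y))
        (YY A (Real.log y)) (π b)), HF g L t F d| ≤ (C * Real.log (max (y0 : ℝ) 3)) ^ Fintype.card ι := by
      refine (trivF hF _ _ _ _).trans ?_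
      calc ∏ i, ∑ m ∈ cell z y (VV A (Real.log y)) (YY A (Real.log y)) (π i), ah g i m
          ≤ ∏ i : ι, (C * Real.log (max (y0 : ℝ) 3)) := by
            refine prod_le_prod (fun i _ => sum_nonneg fun m _ => ah_nonneg _ _ _) fun i _ => ?_
            refine (cs_any hB hy _ _ i (π i)).trans (mul_le_mul_of_nonneg_left ?_ hC0)
            refine Real.log_le_log (by exact_mod_cast (by omega : 0 < y)) ?_
            exact le_max_of_le_left (by exact_mod_cast hyy.le)
        _ = _ := by rw [prod_const, card_univ]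
    calc _ ≤ _ := e1
      _ ≤ (C * Real.log (max (y0 : ℝ) 3)) ^ Fintype.card ι * (Real.log y) ^ K :=
          le_mul_of_one_le_right ha0 hlK
      _ ≤ _ := mul_le_mul_of_nonneg_right (by linarith) (by linarith)
  set l := Real.log y with hl
  set V := VV A l with hV
  set Y := YY A l with hY
  have hV3 : 3 ≤ V := three_le_VV A l
  have hlV : 1 ≤ Real.log V := one_le_log_VV A l
  rw [piFinset_split (fun b => π b = 2) (fun b => cell z y V Y (π b))]
  refine (abs_sum_le_sum_abs _ _).trans ?_
  set sm := Fintype.piFinset (fun b => if π b = 2 then {1} else cell z y V Y (π b)) with hsm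
  set F' : (ι → ℕ) → ℝ := fun d => |∑ x ∈ Fintype.piFinset
    (fun b => if π b = 2 then cell z y V Y (π b) else {d b}), HF g L t F x| with hF'
  have hdv : ∀ d ∈ sm, ∀ b, d b ∈ (PP z y).divisors := by
    intro d hd b
    have := Fintype.mem_piFinset.1 hd b
    by_cases hb : π b = 2
    · rw [if_pos hb, mem_singleton] at this
      rw [this]
      exact one_mem_dv z y
    · rw [if_neg hb] at this
      exact cell_sub _ _ _ _ _ this
  -- the good and the bad tuples
  set Gd : (ι → ℕ) → Prop := fun d => ∃ i, π i = 2 ∧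
    ∀ t, |∑ p ∈ PS z y, g i p * ps (lk L i d) t p| ≤ e i / 2 * Real.log l with hGd
  set Cp : (ι → ℕ) → Prop := fun d => ∀ i j, i ≠ j → (d i).Coprime (d j) with hCp
  set W : (ι → ℕ) → ℝ := fun d => ∏ b ∈ univ.filter (fun b => π b ≠ 2), ah g b (d b) with hW
  have hW0 : ∀ d, 0 ≤ W d := fun d => prod_nonneg fun b _ => ah_nonneg _ _ _
  have hsplit : ∑ d ∈ sm, F' d ≤ ∑ d ∈ sm.filter Gd, F' d +
      ∑ d ∈ (sm.filter (fun d => ¬ Gd d)).filter Cp, F' d := by
    rw [← sum_filter_add_sum_filter_not sm Gd]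
    refine add_le_add le_rfl ?_
    rw [← sum_filter_add_sum_filter_not (sm.filter (fun d => ¬ Gd d)) Cp]
    have : ∑ d ∈ (sm.filter (fun d => ¬ Gd d)).filter (fun d => ¬ Cp d), F' d = 0 := by
      refine sum_eq_zero fun d hd => ?_
      rw [mem_filter, mem_filter] at hd
      obtain ⟨⟨hd1, _⟩, hd2⟩ := hd
      rw [hCp] at hd2
      simp only at hd2
      push Not at hd2
      obtain ⟨i, j, hij, hnc⟩ := hd2
      have hne : ∀ b, π b = 2 → d b = 1 := by
        intro b hb
        have := Fintype.mem_piFinset.1 hd1 b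
        rwa [if_pos hb, mem_singleton] at this
      have hi2 : π i ≠ 2 := fun h => hnc (by rw [hne i h]; exact Nat.coprime_one_left _)
      have hj2 : π j ≠ 2 := fun h => hnc (by rw [hne j h]; exact Nat.coprime_one_right _)
      rw [hF']
      simp only
      rw [sum_eq_zero, abs_zero]
      intro x hx
      have hxi := Fintype.mem_piFinset.1 hx i
      have hxj := Fintype.mem_piFinset.1 hx j
      rw [if_neg hi2, mem_singleton] at hxi
      rw [if_neg hj2, mem_singleton] at hxj
      unfold HF HG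
      rw [if_neg, zero_mul]
      intro h
      have := h i j hij
      rw [hxi, hxj] at this
      exact hnc this
    rw [this, add_zero]
  -- the good tuples
  have hWsum : ∑ d ∈ sm, W d ≤ C ^ Fintype.card ι * (Real.log V) ^ Fintype.card ι := by
    have e1 : ∀ d ∈ sm, W d = ∏ b, (if π b = 2 then 1 else ah g b (d b)) := by
      intro d _
      rw [hW]
      simp only
      rw [prod_filter]
      refine prod_congr rfl fun b _ => ?_
      by_cases hb : π b = 2
      · simp [hb]
      · simp [hb]
    rw [sum_congr rfl e1, hsm, ← prod_univ_sum (fun b => if π b = 2 then {1} else cell z y V Y (π b))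
      (fun b m => if π b = 2 then 1 else ah g b m)]
    have e2 : ∀ b : ι, ∑ m ∈ (if π b = 2 then {1} else cell z y V Y (π b)),
        (if π b = 2 then 1 else ah g b m) ≤ C * Real.log V := by
      intro b
      by_cases hb : π b = 2
      · simp only [if_pos hb, sum_const, card_singleton, one_smul]
        nlinarith [hB.C1]
      · simp only [if_neg hb]
        have := cs_low hB hy (Y := Y) hV3 b (h3 b)
        rwa [if_neg hb] at this
    refine (prod_le_prod (fun b _ => ?_) fun b _ => e2 b).trans (le_of_eq ?_)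
    · refine sum_nonneg fun m _ => ?_
      split_ifs
      · exact zero_le_one
      · exact ah_nonneg _ _ _
    · rw [prod_const, card_univ, mul_pow]
  have hgoodsum : ∑ d ∈ sm.filter Gd, F' d ≤
      (∑ i, C ^ Fintype.card ι * (C ^ Fintype.card ι * (3 * C + 12) * C1 i)) * l ^ K := by
    have e1 : ∀ d ∈ sm.filter Gd, F' d ≤ W d * ∑ i, (C ^ Fintype.card ι * (3 * C + 12) *
        l ^ (S - e i / 2) * Real.log V) := by
      intro d hd
      rw [mem_filter] at hd
      obtain ⟨hd1, i, hi, hgi⟩ := hd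
      have := good_caseF (t := t) hCO hB hF hN hL A π hun hy hNl (hdv d hd1) hi hgi
      refine this.trans (mul_le_mul_of_nonneg_left ?_ (hW0 d))
      exact single_le_sum (f := fun i => C ^ Fintype.card ι * (3 * C + 12) *
        l ^ (S - e i / 2) * Real.log V) (fun j _ => by positivity) (mem_univ i)
    refine (sum_le_sum e1).trans ?_
    rw [← sum_mul]
    have e2 : ∑ d ∈ sm.filter Gd, W d ≤ C ^ Fintype.card ι * (Real.log V) ^ Fintype.card ι :=
      (sum_le_sum_of_subset_of_nonneg (filter_subset _ _) fun d _ _ => hW0 d).trans hWsum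
    have e3 : 0 ≤ ∑ i, (C ^ Fintype.card ι * (3 * C + 12) *
        l ^ (S - e i / 2) * Real.log V) := sum_nonneg fun i _ => by positivity
    refine (mul_le_mul_of_nonneg_right e2 e3).trans ?_
    rw [mul_sum, sum_mul]
    refine sum_le_sum fun i _ => ?_
    have e4 := h1 i l hly
    have e5 : l ^ (S - e i / 2) * l ^ (e i / 2) ≤ l ^ K := by
      rw [← Real.rpow_add hly0]
      exact Real.rpow_le_rpow_of_exponent_le hly (by linarith)
    calc C ^ Fintype.card ι * (Real.log V) ^ Fintype.card ι * (C ^ Fintype.card ι * (3 * C + 12) *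
        l ^ (S - e i / 2) * Real.log V)
        = C ^ Fintype.card ι * (C ^ Fintype.card ι * (3 * C + 12)) * l ^ (S - e i / 2) *
          (Real.log V) ^ (Fintype.card ι + 1) := by ring
      _ ≤ C ^ Fintype.card ι * (C ^ Fintype.card ι * (3 * C + 12)) * l ^ (S - e i / 2) *
          (C1 i * l ^ (e i / 2)) := mul_le_mul_of_nonneg_left e4 (by positivity)
      _ = C ^ Fintype.card ι * (C ^ Fintype.card ι * (3 * C + 12)) * C1 i *
          (l ^ (S - e i / 2) * l ^ (e i / 2)) := by ring
      _ ≤ C ^ Fintype.card ι * (C ^ Fintype.card ι * (3 * C + 12)) * C1 i * l ^ K :=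
          mul_le_mul_of_nonneg_left e5 (by have := hC1 i; positivity)
      _ = _ := by ring
  -- the bad tuples
  set Bd := (sm.filter (fun d => ¬ Gd d)).filter Cp with hBd
  have hbadW : ∑ d ∈ Bd, W d ≤ ∏ i : ι, ((4 * n + 1 : ℕ) : ℝ) := by
    set E : ι → Finset ℕ := fun i => if π i = 2 then
      (Ex (g i) (e i) z y (V ^ Fintype.card ι) true ∪
        Ex (g i) (e i) z y (V ^ Fintype.card ι) false) ∪
      (Ex (fun p => -g i p) (e i) z y (V ^ Fintype.card ι) true ∪
        Ex (fun p => -g i p) (e i) z y (V ^ Fintype.card ι) false)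
      else {1} with hE
    have hcop : ∀ d ∈ Bd, (∀ b, d b ∈ (PP z y).divisors) ∧ Cp d := by
      intro d hd
      rw [hBd, mem_filter, mem_filter] at hd
      exact ⟨hdv d hd.1.1, hd.2⟩
    have hR : ∀ d ∈ Bd, ∏ b, d b ∣ PP z y := by
      intro d hd
      obtain ⟨h1, h2⟩ := hcop d hd
      refine Finset.prod_dvd_of_isRelPrime (fun i _ j _ hij => ?_) fun b _ =>
        Nat.dvd_of_mem_divisors (h1 b)
      exact Nat.coprime_iff_isRelPrime.1 (h2 i j hij)
    have h2 : ∀ d ∈ Bd, ∃ r : ι → ℕ, (∀ i, r i ∈ E i) ∧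
        (∏ b, d b).primeFactors = univ.biUnion (fun i => (r i).primeFactors) := by
      intro d hd
      obtain ⟨hd1, hd2⟩ := hcop d hd
      have hdsm : d ∈ sm ∧ ¬ Gd d := by
        rw [hBd, mem_filter, mem_filter] at hd
        exact hd.1
      have hone : ∀ b, π b = 2 ∨ π b = 0 → d b = 1 := by
        intro b hb
        have := Fintype.mem_piFinset.1 hdsm.1 b
        rcases hb with hb | hb
        · rwa [if_pos hb, mem_singleton] at this
        · rw [if_neg (by rw [hb]; decide), hb] at this
          exact cell_zero this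
      have hle : ∀ b, 0 < d b ∧ d b ≤ V := by
        intro b
        refine ⟨dv_pos (hd1 b), ?_⟩
        by_cases hb : π b = 2 ∨ π b = 0
        · rw [hone b hb]
          omega
        · have hb1 : π b = 1 := by
            have h3b := h3 b
            revert hb h3b
            generalize π b = r
            revert r
            decide
          have := Fintype.mem_piFinset.1 hdsm.1 b
          rw [if_neg (by rw [hb1]; decide), hb1] at this
          exact (cell_one this).2
      have hlkle : ∀ i, 1 ≤ lk L i d ∧ lk L i d ≤ V ^ Fintype.card ι := by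
        intro i
        unfold lk
        constructor
        · exact prod_pos fun b _ => (hle b).1
        · calc ∏ b ∈ (univ.erase i).filter (fun b => L i b ≠ L b i), d b
              ≤ ∏ b ∈ (univ.erase i).filter (fun b => L i b ≠ L b i), V :=
                prod_le_prod' fun b _ => (hle b).2
            _ = V ^ ((univ.erase i).filter (fun b => L i b ≠ L b i)).card := by rw [prod_const]
            _ ≤ V ^ Fintype.card ι := Nat.pow_le_pow_right (by omega)
                ((card_le_card (subset_univ _)).trans (le_of_eq card_univ))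
      have hlksq : ∀ i, Squarefree (lk L i d) := by
        intro i
        unfold lk
        exact squarefree_prod _ _ (fun b _ => dv_squarefree (hd1 b))
          fun a _ b _ hab => hd2 a b hab
      refine ⟨fun i => if π i = 2 then lk L i d else 1, fun i => ?_, ?_⟩
      · rw [hE]
        simp only
        by_cases hi : π i = 2
        · rw [if_pos hi, if_pos hi]
          have hng : ∃ t, e i / 2 * Real.log l < |∑ p ∈ PS z y, g i p * ps (lk L i d) t p| := by
            by_contra hcon
            push Not at hcon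
            exact hdsm.2 ⟨i, hi, hcon⟩
          obtain ⟨τ, ht⟩ := hng
          rcases lt_abs.1 ht with ht | ht
          · have hmem : lk L i d ∈ Ex (g i) (e i) z y (V ^ Fintype.card ι) τ :=
              mem_Ex.2 ⟨hlkle i, hlksq i, fun p hp hpd => lk_primes hd1 hp hpd, ht⟩
            rw [mem_union, mem_union, mem_union]
            cases τ
            · exact Or.inl (Or.inr hmem)
            · exact Or.inl (Or.inl hmem)
          · have hmem : lk L i d ∈ Ex (fun p => -g i p) (e i) z y (V ^ Fintype.card ι) τ :=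
              mem_Ex.2 ⟨hlkle i, hlksq i, fun p hp hpd => lk_primes hd1 hp hpd, by
                simpa only [neg_mul, sum_neg_distrib] using ht⟩
            rw [mem_union, mem_union, mem_union]
            cases τ
            · exact Or.inr (Or.inr hmem)
            · exact Or.inr (Or.inl hmem)
        · rw [if_neg hi, if_neg hi, mem_singleton]
      · ext p
        rw [mem_biUnion, Nat.mem_primeFactors]
        have hne : ∏ b, d b ≠ 0 := prod_ne_zero_iff.2 fun b _ => dv_ne_zero (hd1 b)
        constructor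
        · rintro ⟨hp, hpd, -⟩
          obtain ⟨b, -, hb⟩ := (hp.prime.dvd_finsetProd_iff _).1 hpd
          have hb1 : π b = 1 := by
            have hb' : ¬ (π b = 2 ∨ π b = 0) := by
              intro h
              rw [hone b h] at hb
              exact hp.one_lt.ne' (Nat.dvd_one.1 hb)
            have h3b := h3 b
            revert hb' h3b
            generalize π b = r
            revert r
            decide
          obtain ⟨i, hi, hib⟩ := hmax b hb1
          refine ⟨i, mem_univ i, ?_⟩
          simp only [if_pos hi]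
          rw [Nat.mem_primeFactors]
          refine ⟨hp, ?_, by have := (hlkle i).1; omega⟩
          unfold lk
          refine hb.trans (dvd_prod_of_mem _ ?_)
          rw [mem_filter, mem_erase]
          exact ⟨⟨by rintro rfl; rw [hi] at hb1; exact absurd hb1 (by decide), mem_univ b⟩, hib⟩
        · rintro ⟨i, -, hi⟩
          by_cases hi2 : π i = 2
          · simp only [if_pos hi2] at hi
            rw [Nat.mem_primeFactors] at hi
            refine ⟨hi.1, hi.2.1.trans ?_, hne⟩
            unfold lk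
            exact prod_dvd_prod_of_subset _ _ _ (subset_univ _)
          · simp [hi2] at hi
    have e1 : ∑ d ∈ Bd, W d ≤ ∑ d ∈ Bd, 1 / ((∏ b, d b : ℕ) : ℝ) := by
      refine sum_le_sum fun d hd => ?_
      obtain ⟨hd1, _⟩ := hcop d hd
      have hdsm : d ∈ sm := by
        rw [hBd, mem_filter, mem_filter] at hd
        exact hd.1.1
      have e2 : 1 / ((∏ b, d b : ℕ) : ℝ) = ∏ b ∈ univ.filter (fun b => π b ≠ 2), 1 / (d b : ℝ) := by
        rw [prod_filter, Nat.cast_prod, ← prod_const_one, ← prod_div_distrib]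
        refine prod_congr rfl fun b _ => ?_
        by_cases hb : π b = 2
        · have := Fintype.mem_piFinset.1 hdsm b
          rw [if_pos hb, mem_singleton] at this
          simp [hb, this]
        · simp [hb]
      rw [e2]
      exact prod_le_prod (fun b _ => ah_nonneg _ _ _) fun b _ => ah_le_inv hB b (hd1 b)
    refine (e1.trans (bad_sum hz Bd E hR h2)).trans ?_
    refine prod_le_prod (fun i _ => Nat.cast_nonneg _) fun i _ => ?_
    have : (E i).card ≤ 4 * n + 1 := by
      rw [hE]
      simp only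
      by_cases hi : π i = 2
      · rw [if_pos hi]
        have e2 : (Ex (g i) (e i) z y (V ^ Fintype.card ι) true).card ≤ n := hX y hyy hy i true
        have e3 : (Ex (g i) (e i) z y (V ^ Fintype.card ι) false).card ≤ n := hX y hyy hy i false
        have e4 : (Ex (fun p => -g i p) (e i) z y (V ^ Fintype.card ι) true).card ≤ n :=
          hX' y hyy hy i true
        have e5 : (Ex (fun p => -g i p) (e i) z y (V ^ Fintype.card ι) false).card ≤ n :=
          hX' y hyy hy i false
        refine (card_union_le _ _).trans ?_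
        have e6 := card_union_le (Ex (g i) (e i) z y (V ^ Fintype.card ι) true)
          (Ex (g i) (e i) z y (V ^ Fintype.card ι) false)
        have e7 := card_union_le (Ex (fun p => -g i p) (e i) z y (V ^ Fintype.card ι) true)
          (Ex (fun p => -g i p) (e i) z y (V ^ Fintype.card ι) false)
        omega
      · rw [if_neg hi, card_singleton]
        omega
    exact_mod_cast this
  have hbadsum : ∑ d ∈ Bd, F' d ≤ (∏ i : ι, ((4 * n + 1 : ℕ) : ℝ)) * C ^ Fintype.card ι * l ^ K := by
    have e1 : ∀ d ∈ Bd, F' d ≤ W d * (C ^ Fintype.card ι * l ^ K) := by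
      intro d _
      refine (bad_caseF (t := t) hB hF A π hy d).trans (mul_le_mul_of_nonneg_left ?_ (hW0 d))
      refine mul_le_mul_of_nonneg_left ?_ (by positivity)
      exact Real.rpow_le_rpow_of_exponent_le hly hK
    refine (sum_le_sum e1).trans ?_
    rw [← sum_mul]
    refine (mul_le_mul_of_nonneg_right hbadW (by positivity)).trans (le_of_eq ?_)
    ring
  have hfin := hsplit.trans (add_le_add hgoodsum hbadsum)
  have h0K : 0 ≤ (C * Real.log (max (y0 : ℝ) 3)) ^ Fintype.card ι * l ^ K := by positivity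
  refine hfin.trans ?_
  rw [add_mul, add_mul]
  linarith

/-- all patterns -/
lemma patF (hCO : S_COEF) (hB : Bw g e c z C) {Cg : ℝ} (hCg : 0 ≤ Cg)
    (hg2 : ∀ i (y : ℕ), z < y → ∑ p ∈ PS z y, |g i p| ≤ e i * Real.log (Real.log y) + Cg)
    {C2 : ℝ} {E2 : ℕ} (hC2 : 0 ≤ C2) (h2 : BW C2 E2)
    (hL : ∀ i, L i i = false) {K δ : ℝ} (hK0 : 0 ≤ K) (hδ0 : 0 < δ) (hδ1 : δ < 1)
    (hK : ∀ U : Finset ι, (∀ i ∈ U, ∀ j ∈ U, L i j = L j i) →
      (∑ i ∈ U, e i ≤ K ∧ ∀ j, j ∉ U → ∃ i ∈ U, L i j ≠ L j i) ∨
      ∃ ρ : J → ℝ, (∀ a, 0 < ρ a) ∧ ∑ i ∈ U, e i * ρ (t i) - ∑ a, psi δ (ρ a) < K)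
    (hz : 2 ^ Fintype.card ι ≤ z) {n y0 : ℕ}
    (hX : XB g e z (6 * (Fintype.card ι + 2 * E2 + 1)) n y0)
    (hX' : XB (fun i p => -g i p) e z (6 * (Fintype.card ι + 2 * E2 + 1)) n y0)
    (π : ι → Fin 4) : ∃ C' : ℝ, ∀ y, z < y → ∀ F : (J → ℕ) → ℝ, (∀ n, |F n| ≤ 1) →
      (∀ n, F n ≠ 0 → WinJ δ (LL y) n) →
      |∑ d ∈ Fintype.piFinset (fun b => cell z y (VV (6 * (Fintype.card ι + 2 * E2 + 1))
        (Real.log y)) (YY (6 * (Fintype.card ι + 2 * E2 + 1)) (Real.log y)) (π b)),
          HF g L t F d| ≤ C' * (Real.log y) ^ K := by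
  set A := 6 * (Fintype.card ι + 2 * E2 + 1) with hA
  -- the bound for the number of the primes
  have hNN : ∀ y, z < y → ∀ F : (J → ℕ) → ℝ, (∀ n, F n ≠ 0 → WinJ δ (LL y) n) →
      ∃ N : ℕ, (∀ n, F n ≠ 0 → ∀ a, n a ≤ N) ∧ (N : ℝ) + 1 ≤ 4 * Real.log y ∧
        (N : ℝ) + 1 ≤ 4 * Real.log (VV A (Real.log y)) := by
    intro y hy F hW
    have hly := one_le_log hB.z2 hy
    have hly0 : 0 < Real.log y := by linarith
    have hL0 : 0 ≤ LL y := Real.log_nonneg hly
    refine ⟨⌊(1 + δ) * LL y⌋₊, fun n hn a => Nat.le_floor (hW n hn a).2, ?_, ?_⟩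
    · have h1 := Nat.floor_le (by positivity : 0 ≤ (1 + δ) * LL y)
      have h2 : LL y ≤ Real.log y - 1 := Real.log_le_sub_one_of_pos hly0
      nlinarith
    · have h1 := Nat.floor_le (by positivity : 0 ≤ (1 + δ) * LL y)
      have h2 : LL y ≤ Real.log (VV A (Real.log y)) := by
        unfold Pool.Agent.L0h5.TT.LL
        refine Real.log_le_log hly0 (le_trans ?_ (VV_ge A (Real.log y)))
        exact le_self_pow₀ hly (by omega)
      have h3 := one_le_log_VV A (Real.log y)
      nlinarith
  by_cases h3 : ∃ k, π k = 3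
  · obtain ⟨k, hk⟩ := h3
    obtain ⟨C', hC'⟩ := tail_caseF (t := t) (L := L) hB A hK0 π hk
    exact ⟨C', fun y hy F hF _ => hC' y hy F hF⟩
  push Not at h3
  by_cases hl : ∃ i j, π i = 2 ∧ π j = 2 ∧ L i j ≠ L j i
  · obtain ⟨i, j, hi, hj, hij⟩ := hl
    obtain ⟨C', hC'⟩ := link_caseF (t := t) hB hC2 h2 hL (le_refl A) hK0 π hi hj hij
    refine ⟨C', fun y hy F hF hW => ?_⟩
    obtain ⟨N, hN1, hN2, -⟩ := hNN y hy F hW
    exact hC' y hy F N hF hN1 hN2
  push Not at hl
  rcases hK (univ.filter (fun k => π k = 2)) (fun i hi j hj =>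
    hl i j (mem_filter.1 hi).2 (mem_filter.1 hj).2) with ⟨hS, hmax⟩ | ⟨ρ, hρ, hρK⟩
  · by_cases h1 : ∃ j, π j = 1
    · obtain ⟨C', hC'⟩ := max_caseF (t := t) hCO hB hL A hK0 π h3
        (fun i j hi hj => hl i j hi hj) (fun j hj => by
          obtain ⟨i, hi, hij⟩ := hmax j (by
            rw [mem_filter, hj]
            rintro ⟨-, h⟩
            exact absurd h (by decide))
          exact ⟨i, (mem_filter.1 hi).2, hij⟩) hS hz hX hX'
      refine ⟨C', fun y hy F hF hW => ?_⟩
      obtain ⟨N, hN1, -, hN3⟩ := hNN y hy F hW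
      exact hC' y hy F N hF hN1 hN3
    · push Not at h1
      obtain ⟨C', hC'⟩ := diag_caseF (t := t) (L := L) hB A π (fun k => by
        have a1 := h1 k
        have a3 := h3 k
        revert a1 a3
        generalize π k = r
        revert r
        decide) hS
      exact ⟨C', fun y hy F hF _ => hC' y hy F hF⟩
  · exact atyp_case hB hCg hg2 hδ0 hδ1 A π h3 hρ hρK

/-- **The truncated abstract bound.** -/
theorem agF (hCO : S_COEF) : S2_AG := by
  classical
  intro ι J _ _ _ _ t e L c K δ he hL hK0 hδ0 hδ1 hK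
  obtain ⟨C2, E2, h2⟩ := Pool.Agent.W655.RK.blw_of (_root_.W37.RK.bl_of Pool.Agent.W505.RK.ls)
  obtain ⟨zF, hF⟩ := Pool.Agent.W655.RK.full (1 / 2) c (by norm_num) le_rfl
  set A := 6 * (Fintype.card ι + 2 * E2 + 1) with hA
  obtain ⟨zE, hzE⟩ : ∃ zE : ℕ, ∀ i, 128 * (Fintype.card ι * (A : ℝ)) ≤ zE * e i := by
    choose zi hzi using fun i => exists_nat_ge (128 * (Fintype.card ι * (A : ℝ)) / e i)
    refine ⟨univ.sup zi, fun i => ?_⟩
    have h1 : (zi i : ℝ) ≤ (univ.sup zi : ℕ) := by exact_mod_cast le_sup (f := zi) (mem_univ i)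
    have h3 := (hzi i).trans h1
    rwa [div_le_iff₀ (he i)] at h3
  refine ⟨zF + zE + 2 * c + 2 + 2 ^ Fintype.card ι, fun z hz g Cg0 hg1 hg2' => ?_⟩
  obtain ⟨Cg, hCg⟩ : ∃ Cg : ℝ, Cg = |Cg0| := ⟨_, rfl⟩
  have hCg0 : 0 ≤ Cg := by rw [hCg]; exact abs_nonneg _
  have hg2 : ∀ i (y : ℕ), z < y → ∑ p ∈ PS z y, |g i p| ≤ e i * Real.log (Real.log y) + Cg :=
    fun i y hy => (hg2' i y hy).trans (by have := le_abs_self Cg0; linarith)
  have hpow : 0 < 2 ^ Fintype.card ι := by positivity
  obtain ⟨CF, hF1, hF2, hF3⟩ := hF z (by omega)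
  have hz2 : 2 ≤ z := by omega
  have hzc : 2 * c + 2 ≤ z := by omega
  set C : ℝ := 1 + 2 * |CF| + Real.exp (Cg + 2) with hC
  have hCF : CF ≤ C := by
    have := le_abs_self CF
    have := abs_nonneg CF
    have := Real.exp_pos (Cg + 2)
    linarith
  have hle : ∀ i (y m : ℕ), m ∈ (PP z y).divisors → ah g i m ≤ gw (1 / 2) c m * hh m :=
    fun i y m hm => mul_le_mul_of_nonneg_right (abs_gg_le_gw hg1 i hm) (hh_nonneg _)
  have hB : Bw g e c z C :=
    { z2 := hz2
      zc := hzc
      C1 := by
        have := abs_nonneg CF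
        have := Real.exp_pos (Cg + 2)
        linarith
      g1 := hg1
      e0 := he
      F0 := fun i y hy => by
        have hly := one_le_log hz2 hy
        refine (sum_le_sum fun m hm => hle i y m hm).trans ((hF1 y hy).trans ?_)
        have h3 : (Real.log y) ^ (1 / 2 : ℝ) ≤ Real.log y := by
          calc (Real.log y) ^ (1 / 2 : ℝ) ≤ (Real.log y) ^ (1 : ℝ) :=
                Real.rpow_le_rpow_of_exponent_le hly (by norm_num)
            _ = Real.log y := Real.rpow_one _
        have h4 : 0 ≤ (Real.log y) ^ (1 / 2 : ℝ) := by positivity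
        have hC0 : 0 ≤ C := by
          have := abs_nonneg CF
          have := Real.exp_pos (Cg + 2)
          linarith
        exact (mul_le_mul_of_nonneg_right hCF h4).trans (mul_le_mul_of_nonneg_left h3 hC0)
      F1 := fun i y hy => by
        refine (f1_of hz2 hzc (hg1 i) (hg2 i) y hy).trans ?_
        refine mul_le_mul_of_nonneg_right ?_ (Real.rpow_nonneg (Real.log_natCast_nonneg y) _)
        have := abs_nonneg CF
        linarith
      F2 := fun i y V hy hV => by
        refine (sum_le_sum fun m hm => hle i y m (mem_filter.1 hm).1).trans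
          ((hF2 y V hy hV).trans ?_)
        have hC0 : 0 ≤ C := by
          have := abs_nonneg CF
          have := Real.exp_pos (Cg + 2)
          linarith
        have hlV : 1 / 4 ≤ Real.log V := by
          have h1 : Real.log 2 ≤ Real.log V :=
            Real.log_le_log (by norm_num) (by exact_mod_cast hV)
          have h2 := Real.log_two_gt_d9
          linarith
        have h3 : (Real.log V) ^ (1 / 2 : ℝ) ≤ 2 * Real.log V := by
          rw [← Real.sqrt_eq_rpow, Real.sqrt_le_left (by linarith)]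
          nlinarith
        have h4 : 0 ≤ (Real.log V) ^ (1 / 2 : ℝ) := by positivity
        have h5 : 0 ≤ Real.log V := by linarith
        have h6 := Real.exp_pos (Cg + 2)
        calc CF * (Real.log V) ^ (1 / 2 : ℝ) ≤ |CF| * (Real.log V) ^ (1 / 2 : ℝ) :=
              mul_le_mul_of_nonneg_right (le_abs_self _) h4
          _ ≤ |CF| * (2 * Real.log V) := mul_le_mul_of_nonneg_left h3 (abs_nonneg _)
          _ = 2 * |CF| * Real.log V := by ring
          _ ≤ C * Real.log V := mul_le_mul_of_nonneg_right (by linarith) h5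
      F3 := fun i y Y hy hY => by
        refine (sum_le_sum fun m hm => hle i y m (mem_filter.1 hm).1).trans
          ((hF3 y Y hy hY).trans ?_)
        apply mul_le_mul_of_nonneg_right _ (by positivity)
        exact mul_le_mul_of_nonneg_right hCF (Real.exp_pos _).le }
  have h2' : AT.BW |C2| E2 := fun V Y hV hVY a b ha hb ha' hb' =>
    (h2 V Y hV hVY a b ha hb ha' hb').trans (by
      apply mul_le_mul_of_nonneg_right _ (by positivity)
      exact mul_le_mul_of_nonneg_right (le_abs_self C2)
        (pow_nonneg (Real.log_natCast_nonneg Y) _))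
  -- the exceptional sets
  have hex : ∀ (g' : ι → ℕ → ℝ), (∀ i p, |g' i p| = |g i p|) → ∀ i, ∃ n y0 : ℕ,
      ∀ y, y0 ≤ y → z < y → ∀ t : Bool, ∀ S : Finset ℕ,
      (∀ r ∈ S, 1 ≤ r ∧ r ≤ VV A (Real.log y) ^ Fintype.card ι ∧ Squarefree r ∧
        (∀ p : ℕ, p.Prime → p ∣ r → z < p) ∧
        e i / 2 * Real.log (Real.log y) < ∑ p ∈ PS z y, g' i p * ps r t p) → S.card ≤ n := by
    intro g' hg' i
    refine exc (g' i) (e i) Cg (he i) z hz2 (fun p hp hpz => ?_) (fun y hy => ?_)
      A (Fintype.card ι) ?_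
    · rw [hg']
      refine (hg1 i p hp hpz).trans ?_
      have h3 : (2 * c + 3 : ℝ) ≤ p := by exact_mod_cast (by omega : 2 * c + 3 ≤ p)
      have hc0 : (0 : ℝ) ≤ c := Nat.cast_nonneg c
      rw [div_le_div_iff₀ (by linarith) (by linarith)]
      linarith
    · simp only [hg']
      exact hg2 i y hy
    · refine (hzE i).trans (mul_le_mul_of_nonneg_right ?_ (he i).le)
      exact_mod_cast (by omega : zE ≤ z)
  choose ni yi hni using hex g (fun _ _ => rfl)
  choose ni' yi' hni' using hex (fun i p => -g i p) (fun _ _ => abs_neg _)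
  set n0 := univ.sup ni + univ.sup ni' with hn0
  set y00 := univ.sup yi + univ.sup yi' with hy00
  have hX : XB g e z A n0 y00 := by
    intro y hy hzy i τ
    have h3 : yi i ≤ y := (le_sup (f := yi) (mem_univ i)).trans (by omega)
    have h4 : ni i ≤ univ.sup ni := le_sup (f := ni) (mem_univ i)
    refine (hni i y h3 hzy τ _ fun r hr => ?_).trans (by omega)
    obtain ⟨⟨h4, h5⟩, h6, h7, h8⟩ := mem_Ex.1 hr
    exact ⟨h4, h5, h6, h7, h8⟩
  have hX' : XB (fun i p => -g i p) e z A n0 y00 := by
    intro y hy hzy i τ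
    have h3 : yi' i ≤ y := (le_sup (f := yi') (mem_univ i)).trans (by omega)
    have h4 : ni' i ≤ univ.sup ni' := le_sup (f := ni') (mem_univ i)
    refine (hni' i y h3 hzy τ _ fun r hr => ?_).trans (by omega)
    obtain ⟨⟨h4, h5⟩, h6, h7, h8⟩ := mem_Ex.1 hr
    exact ⟨h4, h5, h6, h7, h8⟩
  choose C' hC' using fun π : ι → Fin 4 => patF hCO hB hCg0 hg2 (abs_nonneg C2) h2' hL hK0 hδ0 hδ1
    hK (by omega) hX hX' π
  refine ⟨∑ π, C' π, fun y hy F hF hW => ?_⟩
  rw [totalF_eq, AT.patterns z y (AT.VV A (Real.log y)) (AT.YY A (Real.log y)), sum_mul]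
  exact (abs_sum_le_sum_abs _ _).trans (sum_le_sum fun π _ => hC' π y hy F hF hW)

end Pool.Agent.L0h5.TU
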