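import Pool.Agent.L0h5.TU.Stm

/-!
# The average over the window
-/

set_option autoImplicit false

namespace Pool.Agent.L0h5.TU

open Finset Pool.Agent.W262.RK Pool.Agent.L0h5.TH
open Pool.Agent.L0h5.TF hiding oo QF
open Pool.Agent.L0h5.AG (gg)
open Pool.Agent.L0h5.TT (vvk xxk nd_xv psi)

lemma Lj_self {J : Type} {k B : ℕ} (q : J → Fin 3) (i : Ij J k B) : Lj q i i = false := by
  unfold Lj Ll
  rw [decide_eq_false_iff_not, Nat.not_odd_iff_even]
  exact (lbj q i).2

lemma wK_pos {k : ℕ} (bad : Bool) (b x : Fin k → Bool) : 0 < wK bad b x := by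
  unfold wK
  split_ifs <;> positivity

/-- the bound for the coefficients of a state -/
noncomputable def FK {k : ℕ} (evn : Bool) (b x : Fin k → Bool) (s : Bool) : ℝ :=
  if (evn && s) = true then (if b = (fun _ => false) ∧ x = (fun _ => false) then 1 else 0)
  else (1 / 2) ^ k

lemma FK_nonneg {k : ℕ} (evn : Bool) (b x : Fin k → Bool) (s : Bool) : 0 ≤ FK evn b x s := by
  unfold FK
  split_ifs <;> positivity

lemma half_pow_le (k : ℕ) : ((1 : ℝ) / 2) ^ k ≤ 1 := pow_le_one₀ (by norm_num) (by norm_num)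

lemma FK_le {k : ℕ} (evn : Bool) (b x : Fin k → Bool) (s : Bool) : FK evn b x s ≤ 1 := by
  unfold FK
  have := half_pow_le k
  split_ifs
  · exact le_rfl
  · exact zero_le_one
  · exact this

lemma FK_th {k : ℕ} (evn sp : Bool) (b x : Fin k → Bool) :
    FK evn b x true + (FK evn b x false - FK evn b x true) * th sp =
      wK (evn && !sp) b x := by
  unfold FK wK th
  cases evn <;> cases sp
  · simp
  · simp
  · simp only [Bool.and_self, Bool.and_false, Bool.not_false, if_true, Bool.false_eq_true, if_false]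
    split_ifs <;> ring
  · simp only [Bool.and_self, Bool.and_false, Bool.not_true, if_true, Bool.false_eq_true, if_false]
    split_ifs <;> ring

/-- **F** the average over the window -/
theorem avgU (hAG : S2_AG) (hEXP : S2_EXP) (hLAM : S2_LAM) (hCMB : S2_CMB) : S2_AVG := by
  classical
  intro J _ _ _ q evn sp hcrit k B0 c hk
  obtain ⟨B, hBdef⟩ : ∃ B : ℕ, B = 2 * B0 + 2 := ⟨_, rfl⟩
  have hB : 0 < B := by omega
  have hBr : (0 : ℝ) < B := by exact_mod_cast hB
  have hB1 : (1 : ℝ) ≤ B := by exact_mod_cast hB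
  obtain ⟨δ0, hδ0, hδ2, hC⟩ := hCMB J k B q (fun j => evn j && !(sp j)) hk hB hcrit
  obtain ⟨z0, hz0⟩ := hAG (Ij J k B) J (fun i => i.1) (ej (fun j => evn j && !(sp j))) (Lj q) c
    (Fintype.card J) δ0 (fun i => div_pos (wK_pos _ _ _) hBr) (Lj_self q) (Nat.cast_nonneg _) hδ0
    (by linarith) (fun U hU => hC δ0 hδ0 le_rfl U hU)
  refine ⟨δ0, hδ0, hδ2, z0 + 2 * c + 8, by omega, fun z hz kap R Cj hR0 H1 H2 => ?_⟩
  have hpc : ∀ p : ℕ, z < p → (0 : ℝ) < (p : ℝ) - c := by
    intro p hp
    have : (2 * c + 3 : ℝ) ≤ p := by exact_mod_cast (by omega : 2 * c + 3 ≤ p)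
    have hc0 : (0 : ℝ) ≤ c := Nat.cast_nonneg c
    linarith
  choose cf hcf1 hcf2 hcf3 using fun (j : J) (r p : ℕ) => hLAM k (q j) (evn j) (kap j r) p
  have hcfb : ∀ j r p b x, |cf j r p b x| ≤ FK (evn j) b x (sg0 p (kap j r 0)) := by
    intro j r p b x
    unfold FK
    by_cases h : (evn j && sg0 p (kap j r 0)) = true
    · rw [if_pos h]
      exact hcf2 j r p h b x
    · rw [if_neg h]
      exact hcf3 j r p h b x
  obtain ⟨w, hw⟩ : ∃ w : J → (Fin k → Bool) → (Fin k → Bool) → ℕ → ℝ,
      w = fun j b x p => ∑ r ∈ R j p, cf j r p b x := ⟨_, rfl⟩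
  have hwb : ∀ j b x p, |w j b x p| ≤ ∑ r ∈ R j p, FK (evn j) b x (sg0 p (kap j r 0)) := by
    intro j b x p
    rw [hw]
    exact (abs_sum_le_sum_abs _ _).trans (sum_le_sum fun r _ => hcfb j r p b x)
  have hCj : 0 ≤ Cj := (abs_nonneg _).trans (H1 (Classical.arbitrary J) (z + 1) (by omega))
  obtain ⟨C, hC'⟩ := hz0 z (by omega) (wj w c) (2 * 1 * Cj)
    (fun i p hp hpz => by
      have h1 : |w i.1 i.2.1 i.2.2.1 p| ≤ B0 := by
        refine (hwb _ _ _ _).trans ?_
        calc ∑ r ∈ R i.1 p, FK (evn i.1) i.2.1 i.2.2.1 (sg0 p (kap i.1 r 0)) ≤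
            ∑ _r ∈ R i.1 p, (1 : ℝ) := sum_le_sum fun r _ => FK_le _ _ _ _
          _ = (R i.1 p).card := by rw [sum_const, nsmul_eq_mul, mul_one]
          _ ≤ _ := by
              have h2 : (R i.1 p).card ≤ ∑ j, (R j p).card :=
                single_le_sum (f := fun j => (R j p).card) (fun _ _ => Nat.zero_le _) (mem_univ i.1)
              exact_mod_cast h2.trans (hR0 p hp hpz)
      have h2 := hpc p hpz
      unfold wj
      rw [abs_div, abs_of_pos (mul_pos hBr h2), ← div_div]
      refine div_le_div_of_nonneg_right ?_ h2.le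
      rw [div_le_iff₀ hBr]
      refine h1.trans ?_
      rw [hBdef]
      push_cast
      linarith)
    (fun i y hy => by
      have h0 := asym (cls := fun j => (q j).castSucc) (sp := sp) H1 (fun j _ => H2 j) i.1
        (fun s => FK (evn i.1) i.2.1 i.2.2.1 s)
        (fun h => absurd h (by
          generalize q i.1 = c
          revert c
          decide)) (M := 1)
        (by
          show |FK (evn i.1) i.2.1 i.2.2.1 true| ≤ 1
          rw [abs_of_nonneg (FK_nonneg _ _ _ _)]
          exact FK_le _ _ _ _)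
        (by
          show |FK (evn i.1) i.2.1 i.2.2.1 false - FK (evn i.1) i.2.1 i.2.2.1 true| ≤ 1
          have h1 := FK_nonneg (evn i.1) i.2.1 i.2.2.1 false
          have h2 := FK_nonneg (evn i.1) i.2.1 i.2.2.1 true
          have h3 := FK_le (evn i.1) i.2.1 i.2.2.1 false
          have h4 := FK_le (evn i.1) i.2.1 i.2.2.1 true
          rw [abs_le]
          constructor <;> linarith) hy
      simp only [FK_th] at h0
      have h1 : ∑ p ∈ PS z y, |wj w c i p| ≤
          (∑ p ∈ PS z y, (∑ r ∈ R i.1 p, FK (evn i.1) i.2.1 i.2.2.1 (sg0 p (kap i.1 r 0))) /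
            ((p : ℝ) - c)) / B := by
        rw [sum_div]
        refine sum_le_sum fun p hp => ?_
        have h2 := hpc p (mem_PS.1 hp).1.1
        unfold wj
        rw [abs_div, abs_of_pos (mul_pos hBr h2), div_div, mul_comm ((p : ℝ) - c)]
        exact div_le_div_of_nonneg_right (hwb _ _ _ _) (mul_pos hBr h2).le
      refine h1.trans ?_
      rw [div_le_iff₀ hBr]
      have h2 := (abs_le.1 h0).2
      have h3 : ej (fun j => evn j && !(sp j)) i * Real.log (Real.log y) * B =
          wK (evn i.1 && !(sp i.1)) i.2.1 i.2.2.1 * Real.log (Real.log y) := by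
        unfold ej
        field_simp
      rw [add_mul, h3]
      have h4 : 2 * 1 * Cj ≤ 2 * 1 * Cj * B := le_mul_of_one_le_right (by linarith) hB1
      linarith)
  refine ⟨|C|, abs_nonneg _, fun y hy => ?_⟩
  obtain ⟨F, hF⟩ : ∃ F : (J → ℕ) → ℝ,
      F = fun n => if WinJ δ0 (Pool.Agent.L0h5.TT.LL y) n then 1 else 0 := ⟨_, rfl⟩
  have h1 := hC' y hy F (fun n => by rw [hF]; simp only; split_ifs <;> simp)
    (fun n hn => by
      by_contra hcon
      rw [hF] at hn
      simp only [if_neg hcon] at hn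
      exact hn rfl)
  rw [← hEXP J k B c z y q (lamR q evn kap R) w hB (fun j p _ _ v h => by
    unfold lamR
    rw [sum_congr rfl fun r _ => hcf1 j r p v h, sum_comm]
    refine sum_congr rfl fun b _ => ?_
    rw [sum_comm]
    refine sum_congr rfl fun x _ => ?_
    rw [hw]
    split_ifs
    · rw [sum_mul]
    · exact sum_const_zero) F] at h1
  have h2 : ∑ s ∈ (Tup J z y).filter (fun s => WinJ δ0 (Pool.Agent.L0h5.TT.LL y) (omJ s)),
      GT (lamR (k := k) q evn kap R) s * ∏ j, gw 1 c (s j) =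
      ∑ s ∈ Tup J z y, F (omJ s) * (GT (lamR (k := k) q evn kap R) s * ∏ j, gw 1 c (s j)) := by
    rw [sum_filter]
    refine sum_congr rfl fun s _ => ?_
    rw [hF]
    simp only
    split_ifs <;> simp
  rw [h2]
  have h3 : 0 ≤ (Real.log y) ^ (Fintype.card J) := pow_nonneg (Real.log_natCast_nonneg y) _
  rw [Real.rpow_natCast] at h1
  exact (le_abs_self _).trans (h1.trans (mul_le_mul_of_nonneg_right (le_abs_self C) h3))

end Pool.Agent.L0h5.TU
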