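import Pool.Agent.L0h5.TU.Stm
import Pool.Agent.L0h5.TT.Fib

/-!
# All moments for the pairs of a family: the types of the primes, the weights
-/

set_option autoImplicit false
set_option linter.unusedSectionVars false

namespace Pool.Agent.L0h5.TU

open Finset Polynomial Pool.Agent.W262.RK Pool.Agent.L0h5.TH Pool.Agent.L0h5.MR
  Pool.Agent.L0h5.TQ Pool.Agent.L0h5.TE
open Pool.Agent.L0h5.TF hiding oo QF
open Pool.Agent.L0h5.TT (LL)

section

variable {J : Type} [Fintype J] [DecidableEq J] {P : J → ℤ[X]} {a : Fin 3 → ℤ}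
  {q : J → Fin 3} {m : J → ℕ} {z : ℕ}

lemma clsG_false (q : J → Fin 3) (j : J) : clsG (fun _ : J => false) q j = (q j).castSucc := by
  unfold clsG
  simp

/-- the hypotheses on the local averages -/
lemma hl_P (g : Gz P a z) {c : ℕ} (hc : c = ∑ j, (P j).natDegree) (k : ℕ) :
    Hl c z (SpA P (fun _ => true)) (LSA P a (fun _ => false) q m) Sigma.fst
      (lamR (k := k) q (evG m) (kapG P a (fun _ => false) q m) (fun j p => rts (P j) p)) where
  lam_eq p _ _ j v h := by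
    rw [sum_filter]
    refine Eq.symm ((sum_SpA (P := P) _ p).trans ?_)
    rw [sum_eq_single j]
    · unfold lamR lstE
      refine sum_congr rfl fun r _ => sum_congr rfl fun neg _ => ?_
      rw [if_pos rfl]
      unfold LSA
      rw [clsG_false]
    · intro j' _ hj'
      refine sum_eq_zero fun r _ => sum_eq_zero fun neg _ => ?_
      rw [if_neg hj']
    · intro h
      exact absurd (mem_univ j) h
  card_le p hp hz := by
    refine (card_SpA p).trans (Nat.mul_le_mul_left _ ?_)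
    rw [hc]
    exact sum_le_sum fun j _ => rho_le (P j) hp (g.lc p hp hz j)
  xc p hp hz σ hσ := xc_A g hp hz hσ

/-- the type of a prime -/
lemma ty_iff [Nonempty J] (g : Gz P a z) {t : ℤ × ℤ} (hc : IsCoprime t.1 t.2) {p : ℕ}
    (hp : p.Prime) (hz : z < p) (hd : (p : ℤ) ∣ hv (FF P) t) (j : J) :
    (stt P (fun _ => true) (Pool.Agent.L0h5.TQ.tp t p : ℤ) p).1 = j ↔ (p : ℤ) ∣ hv (P j) t := by
  have hb := not_dvd_b g hp hz hc hd
  have hfa : (p : ℤ) ∣ fa P (fun _ => true) (Pool.Agent.L0h5.TQ.tp t p : ℤ) := by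
    rw [FF_eq_fa]
    exact (hv_iff1 _ hp hb).1 hd
  obtain ⟨-, h2⟩ := jt_spec ((dvd_fa hp).1 hfa)
  have h3 : (stt P (fun _ => true) (Pool.Agent.L0h5.TQ.tp t p : ℤ) p).1 =
    jt P (fun _ => true) (Pool.Agent.L0h5.TQ.tp t p : ℤ) p := rfl
  rw [h3, hv_iff1 _ hp hb]
  constructor
  · rintro rfl
    exact h2
  · intro h4
    by_contra hne
    exact g.cop p hp hz _ j hne _ h2 h4

lemma big_card {N y X E k' : ℕ} (hN : N ≠ 0) (hy : 1 ≤ y) (hb : N ≤ X ^ E)
    (hk : X < (y + 1) ^ k') : (N.primeFactors.filter (fun p => y < p)).card ≤ E * k' := by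
  have h1 : (y + 1) ^ (N.primeFactors.filter (fun p => y < p)).card ≤ N := by
    calc (y + 1) ^ (N.primeFactors.filter (fun p => y < p)).card =
          ∏ _p ∈ N.primeFactors.filter (fun p => y < p), (y + 1) := by rw [prod_const]
      _ ≤ ∏ p ∈ N.primeFactors.filter (fun p => y < p), p :=
          prod_le_prod' fun p hp => (mem_filter.1 hp).2
      _ ≤ ∏ p ∈ N.primeFactors, p := by
          refine prod_le_prod_of_subset_of_one_le' (filter_subset _ _) fun p hp _ => ?_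
          exact (Nat.prime_of_mem_primeFactors hp).one_lt.le
      _ ≤ N := Nat.le_of_dvd (Nat.pos_of_ne_zero hN) (Nat.prod_primeFactors_dvd N)
  have h2 : X ^ E ≤ ((y + 1) ^ k') ^ E := Nat.pow_le_pow_left hk.le E
  rw [← pow_mul] at h2
  have h3 := (h1.trans hb).trans h2
  have h4 := (Nat.pow_le_pow_iff_right (by omega : 1 < y + 1)).1 h3
  rw [mul_comm]
  exact h4

/-- the comparison of the numbers of the primes -/
lemma cnt_bdU [Nonempty J] (g : Gz P a z) {t : ℤ × ℤ} (hc : IsCoprime t.1 t.2)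
    (ht : hv (FF P) t ≠ 0) {y X E k' : ℕ} (hy : 1 ≤ y)
    (hb : (hv (FF P) t).natAbs ≤ X ^ E) (hk : X < (y + 1) ^ k') (j : J) :
    cnS Sigma.fst (fun p => stt P (fun _ => true) (Pool.Agent.L0h5.TQ.tp t p : ℤ) p)
      (s1 z y (hv (FF P) t)) j ≤ (hv (P j) t).natAbs.primeFactors.card ∧
    (hv (P j) t).natAbs.primeFactors.card ≤
      cnS Sigma.fst (fun p => stt P (fun _ => true) (Pool.Agent.L0h5.TQ.tp t p : ℤ) p)
        (s1 z y (hv (FF P) t)) j +
      (z + E * k' + (s2 z y (hv (FF P) t)).primeFactors.card) := by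
  classical
  have hPne : ∀ j, hv (P j) t ≠ 0 := by
    rw [hv_FF, prod_ne_zero_iff] at ht
    exact fun j => ht j (mem_univ j)
  have hjF : hv (P j) t ∣ hv (FF P) t := by
    rw [hv_FF]
    exact dvd_prod_of_mem (fun l => hv (P l) t) (mem_univ j)
  constructor
  · unfold cnS
    refine card_le_card fun p hp => ?_
    rw [mem_filter] at hp
    have hpp := Nat.prime_of_mem_primeFactors hp.1
    have h1 := (dvd_s1 hpp).1 (Nat.dvd_of_mem_primeFactors hp.1)
    have h2 := (ty_iff g hc hpp (mem_PS.1 h1.1).1.1 h1.2.1 j).1 hp.2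
    exact Nat.mem_primeFactors.2 ⟨hpp, Int.natCast_dvd.1 h2, Int.natAbs_ne_zero.2 (hPne j)⟩
  · have hs1 : s1 z y (hv (FF P) t) ≠ 0 := by
      intro h
      have h1 := s1_dvd_PP z y (hv (FF P) t)
      rw [h, zero_dvd_iff] at h1
      exact PP_ne_zero z y h1
    have hs2 : s2 z y (hv (FF P) t) ≠ 0 := by
      unfold Pool.Agent.L0h5.TH.s2 Pool.Agent.W307.RT.S2
      exact prod_ne_zero_iff.2 fun p hp => (mem_PS.1 (mem_filter.1 hp).1).2.ne_zero
    have hsub : (hv (P j) t).natAbs.primeFactors ⊆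
        ((s1 z y (hv (FF P) t)).primeFactors.filter (fun p =>
          (stt P (fun _ => true) (Pool.Agent.L0h5.TQ.tp t p : ℤ) p).1 = j)) ∪
        (Icc 1 z ∪ (((hv (FF P) t).natAbs.primeFactors.filter (fun p => y < p)) ∪
          (s2 z y (hv (FF P) t)).primeFactors)) := by
      intro p hp
      have hpp := Nat.prime_of_mem_primeFactors hp
      have hpd := Int.natCast_dvd.2 (Nat.dvd_of_mem_primeFactors hp)
      have hpF := hpd.trans hjF
      rw [mem_union, mem_union, mem_union]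
      rcases Nat.lt_or_ge z p with hzp | hzp
      · rcases Nat.lt_or_ge y p with hyp | hyp
        · right; right; left
          rw [mem_filter]
          exact ⟨Nat.mem_primeFactors.2 ⟨hpp, Int.natCast_dvd.1 hpF, Int.natAbs_ne_zero.2 ht⟩, hyp⟩
        · have hPS : p ∈ PS z y := mem_PS.2 ⟨⟨hzp, hyp⟩, hpp⟩
          by_cases hsq : (p : ℤ) ^ 2 ∣ hv (FF P) t
          · right; right; right
            exact Nat.mem_primeFactors.2 ⟨hpp, (dvd_s2 hpp).2 ⟨hPS, hsq⟩, hs2⟩
          · left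
            rw [mem_filter]
            exact ⟨Nat.mem_primeFactors.2 ⟨hpp, (dvd_s1 hpp).2 ⟨hPS, hpF, hsq⟩, hs1⟩,
              (ty_iff g hc hpp hzp hpF j).2 hpd⟩
      · right; left
        rw [mem_Icc]
        exact ⟨hpp.one_lt.le, hzp⟩
    refine (card_le_card hsub).trans ((card_union_le _ _).trans ?_)
    have h1 := card_union_le (Icc 1 z) (((hv (FF P) t).natAbs.primeFactors.filter
      (fun p => y < p)) ∪ (s2 z y (hv (FF P) t)).primeFactors)
    have h2 := card_union_le ((hv (FF P) t).natAbs.primeFactors.filter (fun p => y < p))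
      (s2 z y (hv (FF P) t)).primeFactors
    have h3 := big_card (Int.natAbs_ne_zero.2 ht) hy hb hk
    rw [Nat.card_Icc] at h1
    show _ ≤ ((s1 z y (hv (FF P) t)).primeFactors.filter (fun p =>
          (stt P (fun _ => true) (Pool.Agent.L0h5.TQ.tp t p : ℤ) p).1 = j)).card + _
    omega

end

open Classical in
/-- the weight of the numbers of the primes -/
noncomputable def WU {J : Type} (M : ℕ) (δ : ℝ) (X : ℕ) (n : J → ℕ) : ℝ :=
  (if WinJ δ (LL X) n then 1 else 0) + ((Real.log X) ^ M)⁻¹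

lemma WU_nonneg {J : Type} (M : ℕ) (δ : ℝ) (X : ℕ) (n : J → ℕ) : 0 ≤ WU M δ X n := by
  unfold WU
  have h1 : 0 ≤ Real.log (X : ℝ) := Real.log_natCast_nonneg X
  split_ifs <;> positivity

open Classical in
/-- the average with the weight -/
lemma avg_WU {J St : Type} [Fintype J] [DecidableEq J] {k c z M N : ℕ} {δ : ℝ}
    {Sp : ℕ → Finset St} {LS : St → ℕ → Bool → Bool → Bool → Bool → Prop} {ty : St → J}
    {lam : J → ℕ → Vk k → Vk k → ℝ} (hl : Hl c z Sp LS ty lam) (hGRO : S2_GRO)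
    (hz : 8 ≤ z) (hcz : 2 * c + 2 ≤ z) {lm C1 C2 : ℝ} (hC1 : 0 ≤ C1) (hC2 : 0 ≤ C2)
    (h1 : ∀ X y : ℕ, z < y → y ≤ X → (Real.log X) ^ (1 - δ) ≤ Real.log y →
      ∑ s ∈ (Tup J z y).filter (fun s => WinJ δ (LL X) (omJ s)),
        GT lam s * (∏ j, gw 1 c (s j)) * (∏ j, (s j : ℝ)) ^ (lm / Real.log y) ≤
          C1 * (Real.log y) ^ N)
    (h2 : ∀ y, z < y → ∑ s ∈ Tup J z y, GT lam s * (∏ j, gw 1 c (s j)) *
      (∏ j, (s j : ℝ)) ^ (lm / Real.log y) ≤ C2 * (Real.log y) ^ M)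
    (X y : ℕ) (hzy : z < y) (hyX : y ≤ X) :
    ∑ s ∈ Tup J z y, WU M δ X (omJ s) * (GT lam s * (∏ j, gw 1 c (s j)) *
      (∏ j, (s j : ℝ)) ^ (lm / Real.log y)) ≤
      (C1 + 2 * C2) * (Real.log y) ^ N * (if (Real.log X) ^ (1 - δ) ≤ Real.log y then 1
        else (Real.log X) ^ M) := by
  obtain ⟨f, hf⟩ : ∃ f : (J → ℕ) → ℝ, f = fun τ => GT lam τ * (∏ j, gw 1 c (τ j)) *
    (∏ j, (τ j : ℝ)) ^ (lm / Real.log y) := ⟨_, rfl⟩
  have hf0 : ∀ τ ∈ Tup J z y, 0 ≤ f τ := by
    intro τ hτ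
    have hm := Pool.Agent.L0h5.TT.mem_TupG.1 hτ
    have hsq : Squarefree (∏ j, τ j) :=
      AT.squarefree_prod _ _ (fun b _ => dv_squarefree (hm.1 b))
        fun a _ b _ hab => hm.2 a b hab
    have hg := (hGRO J St k c z Sp LS ty lam hl τ (fun _ => 1) (by simpa using hsq)
      (fun p hp hpd => by
        have hpd' : p ∣ ∏ j, τ j := by simpa using hpd
        obtain ⟨j, -, hj⟩ := (hp.prime.dvd_finsetProd_iff _).1 hpd'
        exact (dv_prime (hm.1 j) hp hj).1)).1
    rw [hf]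
    refine mul_nonneg (mul_nonneg hg (prod_nonneg fun j _ => ?_)) ?_
    · exact gw_nonneg (by omega) (hm.1 j)
    · exact Real.rpow_nonneg (prod_nonneg fun j _ => Nat.cast_nonneg _) _
  have hly : 1 ≤ Real.log y := AT.one_le_log (z := z) (by omega) hzy
  have hlX : Real.log y ≤ Real.log X :=
    Real.log_le_log (by exact_mod_cast (by omega : 0 < y)) (by exact_mod_cast hyX)
  have hlX1 : 1 ≤ Real.log X := hly.trans hlX
  have hly3 : 1 ≤ (Real.log y) ^ N := one_le_pow₀ hly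
  have hXM : 1 ≤ (Real.log X) ^ M := one_le_pow₀ hlX1
  have hyM : (Real.log y) ^ M ≤ (Real.log X) ^ M := pow_le_pow_left₀ (by linarith) hlX M
  have h1' := h1 X y hzy hyX
  have h2' := h2 y hzy
  have hsum : ∑ s ∈ Tup J z y, WU M δ X (omJ s) * (GT lam s * (∏ j, gw 1 c (s j)) *
      (∏ j, (s j : ℝ)) ^ (lm / Real.log y)) = ∑ τ ∈ Tup J z y, WU M δ X (omJ τ) * f τ := by
    rw [hf]
  have h1f : (Real.log X) ^ (1 - δ) ≤ Real.log y →
      ∑ τ ∈ (Tup J z y).filter (fun s => WinJ δ (LL X) (omJ s)), f τ ≤ C1 * (Real.log y) ^ N := by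
    rw [hf]
    exact h1'
  have h2f : ∑ τ ∈ Tup J z y, f τ ≤ C2 * (Real.log y) ^ M := by
    rw [hf]
    exact h2'
  rw [hsum]
  have hsplit : ∑ τ ∈ Tup J z y, WU M δ X (omJ τ) * f τ =
      ∑ τ ∈ (Tup J z y).filter (fun s => WinJ δ (LL X) (omJ s)), f τ +
        ((Real.log X) ^ M)⁻¹ * ∑ τ ∈ Tup J z y, f τ := by
    rw [sum_filter, mul_sum, ← sum_add_distrib]
    refine sum_congr rfl fun τ _ => ?_
    unfold WU
    split_ifs <;> ring
  have hrest : ((Real.log X) ^ M)⁻¹ * ∑ τ ∈ Tup J z y, f τ ≤ C2 := by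
    calc ((Real.log X) ^ M)⁻¹ * ∑ τ ∈ Tup J z y, f τ
        ≤ ((Real.log X) ^ M)⁻¹ * (C2 * (Real.log X) ^ M) := by
          refine mul_le_mul_of_nonneg_left (h2f.trans ?_) (by positivity)
          exact mul_le_mul_of_nonneg_left hyM hC2
      _ = C2 := by field_simp
  have hC23 : C2 ≤ C2 * (Real.log y) ^ N := le_mul_of_one_le_right hC2 hly3
  rw [hsplit]
  split_ifs with hc
  · have h3 := h1f hc
    rw [mul_one]
    have : 0 ≤ C2 * (Real.log y) ^ N := by positivity
    linarith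
  · have h3 : ∑ τ ∈ (Tup J z y).filter (fun s => WinJ δ (LL X) (omJ s)), f τ ≤
        C2 * (Real.log X) ^ M := by
      calc _ ≤ ∑ τ ∈ Tup J z y, f τ :=
            sum_le_sum_of_subset_of_nonneg (filter_subset _ _) fun τ hτ _ => hf0 τ hτ
        _ ≤ C2 * (Real.log y) ^ M := h2f
        _ ≤ _ := mul_le_mul_of_nonneg_left hyM hC2
    have h4 : C2 * (Real.log X) ^ M ≤ C2 * (Real.log y) ^ N * (Real.log X) ^ M :=
      mul_le_mul_of_nonneg_right hC23 (by positivity)
    have h5 : C2 ≤ C2 * (Real.log y) ^ N * (Real.log X) ^ M :=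
      hC23.trans (le_mul_of_one_le_right (by positivity) hXM)
    have h6 : 0 ≤ C1 * (Real.log y) ^ N * (Real.log X) ^ M := by positivity
    calc _ ≤ C2 * (Real.log X) ^ M + C2 := add_le_add h3 hrest
      _ ≤ C2 * (Real.log y) ^ N * (Real.log X) ^ M + C2 * (Real.log y) ^ N * (Real.log X) ^ M +
          C1 * (Real.log y) ^ N * (Real.log X) ^ M := by linarith
      _ = _ := by ring

end Pool.Agent.L0h5.TU
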