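import Pool.Agent.L0h5.TT.Stm
import Pool.Agent.L0h5.TE.D14

/-!
# All moments for the torsion families: the definitions and the statements

Project TU (helper5). Every `S2_X` is the statement of one module.
-/

set_option autoImplicit false

namespace Pool.Agent.L0h5.TU

open Finset Polynomial Pool.Agent.W262.RK Pool.Agent.L0h5.TH Pool.Agent.L0h5.MR
  Pool.Agent.L0h5.TQ Filter
open Pool.Agent.L0h5.TF hiding oo QF
open Pool.Agent.L0h5.AG (gg)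
open Pool.Agent.L0h94.FT (ev ex)
open Pool.Agent.L0h5.TT (vvk xxk nd_xv psi LL)
open Pool.Agent.W307.RT (Box)

/-! ### The windows, the local averages -/

section

variable {J : Type} [Fintype J] {k : ℕ}

/-- the window -/
def WinJ (δ Λ : ℝ) (n : J → ℕ) : Prop := ∀ j, (1 - δ) * Λ ≤ n j ∧ (n j : ℝ) ≤ (1 + δ) * Λ

/-- the numbers of the primes -/
def omJ (s : J → ℕ) : J → ℕ := fun j => (s j).primeFactors.card

/-- the local average at `p`; the type of `p` is the `j` with `p ∣ s j` -/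
noncomputable def lamT (lam : J → ℕ → Vk k → Vk k → ℝ) (s : J → ℕ) (p : ℕ) (v h : Vk k) : ℝ :=
  ∑ j, if p ∣ s j then lam j p v h else 0

/-- the average of the `k`-th power of the local count, by types -/
noncomputable def GT (lam : J → ℕ → Vk k → Vk k → ℝ) (s : J → ℕ) : ℝ :=
  Gs (lamT lam s) (∏ j, s j)

open Classical in
/-- the hypotheses on the local averages: states `Sp p`, local conditions `LS`, types `ty` -/
structure Hl {St : Type} (c z : ℕ) (Sp : ℕ → Finset St)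
    (LS : St → ℕ → Bool → Bool → Bool → Bool → Prop) (ty : St → J)
    (lam : J → ℕ → Vk k → Vk k → ℝ) : Prop where
  lam_eq : ∀ p, p.Prime → z < p → ∀ j v h, lam j p v h =
    ∑ σ ∈ (Sp p).filter (fun σ => ty σ = j), (1 / 2) * ∏ i, iL (LS σ p) (v i) (h i)
  card_le : ∀ p, p.Prime → z < p → (Sp p).card ≤ 2 * c
  xc : ∀ p, p.Prime → z < p → ∀ σ ∈ Sp p, XC (LS σ p)

end

/-! ### The indices -/

section

variable {J : Type}

/-- the indices: type, divisor part, character part, copy -/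
abbrev Ij (J : Type) (k B : ℕ) : Type := J × (Fin k → Bool) × (Fin k → Bool) × Fin B

/-- the label of an index; `q` is the class of a type -/
def lbj {k B : ℕ} (q : J → Fin 3) (i : Ij J k B) : Lb k :=
  ⟨(vvk (q i.1) i.2.1, xxk (q i.1) i.2.2.1), nd_xv _ _ _⟩

/-- the link -/
def Lj {k B : ℕ} (q : J → Fin 3) (i i' : Ij J k B) : Bool := Ll (lbj q i) (lbj q i')

/-- the weight; `bad`: even multiplicity and nonsplit -/
noncomputable def wK {k : ℕ} (bad : Bool) (b x : Fin k → Bool) : ℝ :=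
  if bad = true then (if b = (fun _ => false) ∧ x = (fun _ => false) then 1 / 2 + (1 / 2) ^ (k + 1)
    else (1 / 2) ^ (k + 1)) else (1 / 2) ^ k

/-- the exponents -/
noncomputable def ej {k B : ℕ} (bad : J → Bool) (i : Ij J k B) : ℝ :=
  wK (bad i.1) i.2.1 i.2.2.1 / B

/-- the criterion: for every class `a` that occurs, the number of the types of class `a` is at most
the number of the types of the other classes that are not bad, and if they are equal there is a bad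
type -/
def CritA [Fintype J] (q : J → Fin 3) (bad : J → Bool) : Prop :=
  ∀ a : Fin 3, (∃ j, q j = a) →
    (univ.filter (fun j => q j = a)).card < (univ.filter (fun j => q j ≠ a ∧ bad j = false)).card ∨
    ((univ.filter (fun j => q j = a)).card = (univ.filter (fun j => q j ≠ a ∧ bad j = false)).card ∧
      ∃ j, bad j = true)

/-- the weights of the indices -/
noncomputable def wj {k B : ℕ} (w : J → (Fin k → Bool) → (Fin k → Bool) → ℕ → ℝ) (c : ℕ)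
    (i : Ij J k B) (p : ℕ) : ℝ := w i.1 i.2.1 i.2.2.1 p / (B * ((p : ℝ) - c))

/-- the local average of a type: the states are the pairs of a root and a sign -/
noncomputable def lamR {k : ℕ} (q : J → Fin 3) (evn : J → Bool) (kap : J → ℕ → Fin 3 → ℤ)
    (R : J → ℕ → Finset ℕ) (j : J) (p : ℕ) (v h : Vk k) : ℝ :=
  ∑ r ∈ R j p, lstE (q j).castSucc (evn j) (kap j r) p v h

end

/-! ### A: the truncated abstract bound (helper5) -/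

/-- **A** the truncated abstract bound -/
def S2_AG : Prop := ∀ (ι J : Type) [Fintype ι] [DecidableEq ι] [Fintype J] [DecidableEq J]
  (t : ι → J) (e : ι → ℝ) (L : ι → ι → Bool) (c : ℕ) (K δ : ℝ),
  (∀ i, 0 < e i) → (∀ i, L i i = false) → 0 ≤ K → 0 < δ → δ < 1 →
  (∀ U : Finset ι, (∀ i ∈ U, ∀ j ∈ U, L i j = L j i) →
    (∑ i ∈ U, e i ≤ K ∧ ∀ j, j ∉ U → ∃ i ∈ U, L i j ≠ L j i) ∨
    ∃ ρ : J → ℝ, (∀ a, 0 < ρ a) ∧ ∑ i ∈ U, e i * ρ (t i) - ∑ a, psi δ (ρ a) < K) →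
  ∃ z0 : ℕ, ∀ z, z0 ≤ z → ∀ (g : ι → ℕ → ℝ) (Cg : ℝ),
    (∀ i p, p.Prime → z < p → |g i p| ≤ (1 / 2) / ((p : ℝ) - c)) →
    (∀ i (y : ℕ), z < y → ∑ p ∈ PS z y, |g i p| ≤ e i * Real.log (Real.log y) + Cg) →
    ∃ C : ℝ, ∀ y, z < y → ∀ F : (J → ℕ) → ℝ, (∀ n, |F n| ≤ 1) →
      (∀ n, F n ≠ 0 → WinJ δ (LL y) n) →
      |∑ d ∈ Tup ι z y, ((∏ i, gg g i (d i)) * Sym L (fun _ => 1) d) *
        F (fun a => ∑ i ∈ univ.filter (fun i => t i = a), (d i).primeFactors.card)| ≤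
          C * (Real.log y) ^ K

/-! ### B: the expansion -/

/-- **B** the expansion of the truncated average (`B` copies, the coefficients depend on `p`) -/
def S2_EXP : Prop := ∀ (J : Type) [Fintype J] [DecidableEq J] (k B c z y : ℕ) (q : J → Fin 3)
  (lam : J → ℕ → Vk k → Vk k → ℝ) (w : J → (Fin k → Bool) → (Fin k → Bool) → ℕ → ℝ), 0 < B →
  (∀ j p, p.Prime → z < p → ∀ v h, lam j p v h =
    ∑ b : Fin k → Bool, ∑ x : Fin k → Bool,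
      if vvk (q j) b = v then w j b x p * chi (xxk (q j) x) h else 0) →
  ∀ F : (J → ℕ) → ℝ,
  ∑ s ∈ Tup J z y, F (omJ s) * (GT lam s * ∏ j, gw 1 c (s j)) =
    ∑ d ∈ Tup (Ij J k B) z y, ((∏ i, gg (wj w c) i (d i)) * Sym (Lj q) (fun _ => 1) d) *
      F (fun a => ∑ i ∈ univ.filter (fun i => i.1 = a), (d i).primeFactors.card)

/-- **C** the local density in characters -/
def S2_LAM : Prop := ∀ (k : ℕ) (c : Fin 3) (evn : Bool) (κ : Fin 3 → ℤ) (p : ℕ),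
  ∃ cf : (Fin k → Bool) → (Fin k → Bool) → ℝ,
    (∀ v h : Vk k, lstE c.castSucc evn κ p v h =
      ∑ b : Fin k → Bool, ∑ x : Fin k → Bool,
        if vvk c b = v then cf b x * chi (xxk c x) h else 0) ∧
    ((evn && sg0 p (κ 0)) = true → ∀ b x, |cf b x| ≤
      if b = (fun _ => false) ∧ x = (fun _ => false) then 1 else 0) ∧
    (¬ (evn && sg0 p (κ 0)) = true → ∀ b x, |cf b x| ≤ (1 / 2) ^ k)

/-! ### D: combinatorics -/

/-- **D** the unlinked sets -/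
def S2_CMB : Prop := ∀ (J : Type) [Fintype J] [DecidableEq J] [Nonempty J] (k B : ℕ)
  (q : J → Fin 3) (bad : J → Bool), 1 ≤ k → 0 < B → CritA q bad →
  ∃ δ0 : ℝ, 0 < δ0 ∧ δ0 ≤ 1 / 2 ∧ ∀ δ, 0 < δ → δ ≤ δ0 →
  ∀ U : Finset (Ij J k B), (∀ i ∈ U, ∀ j ∈ U, Lj q i j = Lj q j i) →
    (∑ i ∈ U, ej bad i ≤ Fintype.card J ∧ ∀ j, j ∉ U → ∃ i ∈ U, Lj q i j ≠ Lj q j i) ∨
    ∃ ρ : J → ℝ, (∀ a, 0 < ρ a) ∧
      ∑ i ∈ U, ej bad i * ρ i.1 - ∑ a, psi δ (ρ a) < Fintype.card J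

/-! ### E: growth and trivial bounds -/

/-- **E1** the growth of `GT` -/
def S2_GRO : Prop := ∀ (J St : Type) [Fintype J] [DecidableEq J] (k c z : ℕ) (Sp : ℕ → Finset St)
  (LS : St → ℕ → Bool → Bool → Bool → Bool → Prop) (ty : St → J)
  (lam : J → ℕ → Vk k → Vk k → ℝ), Hl c z Sp LS ty lam → ∀ s e : J → ℕ,
  Squarefree (∏ j, s j * e j) → (∀ p, p.Prime → p ∣ ∏ j, s j * e j → z < p) →
  0 ≤ GT lam s ∧
  GT lam (fun j => s j * e j) ≤ ((4 : ℝ) ^ k * c) ^ (∑ j, (e j).primeFactors.card) * GT lam s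

/-- **E2** the trivial bound for the average -/
def S2_TRV : Prop := ∀ (J St : Type) [Fintype J] [DecidableEq J] (k c z : ℕ) (Sp : ℕ → Finset St)
  (LS : St → ℕ → Bool → Bool → Bool → Bool → Prop) (ty : St → J)
  (lam : J → ℕ → Vk k → Vk k → ℝ), Hl c z Sp LS ty lam → 8 ≤ z → 2 * c + 2 ≤ z →
  ∃ M : ℕ, ∀ lm : ℝ, 0 ≤ lm → ∃ C : ℝ, 0 ≤ C ∧ ∀ y, z < y →
    ∑ s ∈ Tup J z y, GT lam s * (∏ j, gw 1 c (s j)) *
      (∏ j, (s j : ℝ)) ^ (lm / Real.log y) ≤ C * (Real.log y) ^ M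

/-! ### F: the average over the window (from A, B, C, D) -/

open Classical in
/-- **F** the average over the window -/
def S2_AVG : Prop := ∀ (J : Type) [Fintype J] [DecidableEq J] [Nonempty J] (q : J → Fin 3)
  (evn sp : J → Bool), CritA q (fun j => evn j && !(sp j)) → ∀ (k B0 c : ℕ), 1 ≤ k →
  ∃ δ0 : ℝ, 0 < δ0 ∧ δ0 ≤ 1 / 2 ∧ ∃ z0 : ℕ, 8 ≤ z0 ∧ ∀ z, z0 ≤ z →
    ∀ (kap : J → ℕ → Fin 3 → ℤ) (R : J → ℕ → Finset ℕ) (Cj : ℝ),
    (∀ p : ℕ, p.Prime → z < p → ∑ j, (R j p).card ≤ B0) →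
    (∀ (j : J) (y : ℕ), z < y → |∑ p ∈ PS z y, ((R j p).card : ℝ) / ((p : ℝ) - c) -
      Real.log (Real.log y)| ≤ Cj) →
    (∀ (j : J) (y : ℕ), z < y → |∑ p ∈ PS z y, ((Rz kap R j p).card : ℝ) / ((p : ℝ) - c) -
      th (sp j) * Real.log (Real.log y)| ≤ Cj) →
    ∃ C : ℝ, 0 ≤ C ∧ ∀ y, z < y →
      ∑ s ∈ (Tup J z y).filter (fun s => WinJ δ0 (LL y) (omJ s)),
        GT (lamR (k := k) q evn kap R) s * ∏ j, gw 1 c (s j) ≤
          C * (Real.log y) ^ (Fintype.card J)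

/-! ### G: the Rankin trick in the window (from E) -/

open Classical in
/-- **G** the average over the window with the Rankin factor -/
def S2_RNK : Prop := ∀ (J St : Type) [Fintype J] [DecidableEq J] (k c z N : ℕ) (δ0 : ℝ)
  (Sp : ℕ → Finset St) (LS : St → ℕ → Bool → Bool → Bool → Bool → Prop) (ty : St → J)
  (lam : J → ℕ → Vk k → Vk k → ℝ), Hl c z Sp LS ty lam → 8 ≤ z → 2 * c + 2 ≤ z →
  0 < δ0 → δ0 ≤ 1 / 2 →
  (∃ C : ℝ, 0 ≤ C ∧ ∀ y, z < y →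
    ∑ s ∈ (Tup J z y).filter (fun s => WinJ δ0 (LL y) (omJ s)),
      GT lam s * ∏ j, gw 1 c (s j) ≤ C * (Real.log y) ^ N) →
  ∀ lm : ℝ, 0 ≤ lm → ∃ C : ℝ, 0 ≤ C ∧ ∀ X y : ℕ, z < y → y ≤ X →
    (Real.log X) ^ (1 - δ0 / 3) ≤ Real.log y →
    ∑ s ∈ (Tup J z y).filter (fun s => WinJ (δ0 / 3) (LL X) (omJ s)),
      GT lam s * (∏ j, gw 1 c (s j)) * (∏ j, (s j : ℝ)) ^ (lm / Real.log y) ≤
        C * (Real.log y) ^ N

/-! ### H: the abstract core (from `Pool.Agent.L0h19.TT.ant : S_ANT`) -/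

/-- the numbers of the primes of `s` of each type -/
def cnS {J St : Type} [DecidableEq J] (ty : St → J) (st : ℕ → St) (s : ℕ) : J → ℕ :=
  fun j => (s.primeFactors.filter (fun p => ty (st p) = j)).card

open Classical in
/-- **H** the abstract core -/
def S2_CORE : Prop := ∀ (J Ω St : Type) [Fintype J] [DecidableEq J] [Nonempty J]
  (k c N M z : ℕ) (Sp : ℕ → Finset St) (LS : St → ℕ → Bool → Bool → Bool → Bool → Prop)
  (ty : St → J) (lam : J → ℕ → Vk k → Vk k → ℝ) (δ : ℝ) (W : ℕ → (J → ℕ) → ℝ),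
  Hl c z Sp LS ty lam → 2 * c + 2 ≤ z → 0 < δ → δ < 1 → (∀ X n, 0 ≤ W X n) →
  (∀ lm : ℝ, 0 ≤ lm → ∃ A : ℝ, ∀ X y : ℕ, z < y → y ≤ X →
    ∑ s ∈ Tup J z y, W X (omJ s) * (GT lam s * (∏ j, gw 1 c (s j)) *
      (∏ j, (s j : ℝ)) ^ (lm / Real.log y)) ≤
      A * (Real.log y) ^ N * (if (Real.log X) ^ (1 - δ) ≤ Real.log y then 1
        else (Real.log X) ^ M)) →
  ∀ (T : ℕ → Finset Ω) (Tt : ℕ → Ω → Prop) (S : ℕ → ℝ) (f : Ω → ℤ) (st : Ω → ℕ → St)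
    (rk : Ω → ℕ) (D0 D1 C CB B : ℝ) (K y0 : ℕ),
  (∀ X Y, X ≤ Y → T X ⊆ T Y) → (∀ X, 1 ≤ X → 1 ≤ S X) → (∀ X, ∀ ω ∈ T X, f ω ≠ 0) →
  (∀ X, ∀ ω ∈ T X, ∀ p, p.Prime → z < p → (p : ℤ) ∣ f ω → ¬ (p : ℤ) ^ 2 ∣ f ω →
    st ω p ∈ Sp p) →
  0 ≤ D0 → 1 ≤ D1 → 0 ≤ C → 1 ≤ CB → 1 ≤ B → 1 ≤ K →
  (∀ X y k' : ℕ, y0 ≤ y → z < y → y ≤ X → X < (y + 1) ^ k' → ∀ ω ∈ T X,
    (2 : ℝ) ^ rk ω ≤ D0 * D1 ^ k' * 4 ^ (s2 z y (f ω)).primeFactors.card *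
      (NL (s1 z y (f ω)) (fun p => LS (st ω p) p) : ℝ)) →
  (∀ X y k' : ℕ, y0 ≤ y → z < y → y ≤ X → X < (y + 1) ^ k' → ∀ ω ∈ T X, Tt X ω →
    1 ≤ CB * B ^ (k' + (s2 z y (f ω)).primeFactors.card) *
      W X (cnS ty (st ω) (s1 z y (f ω)))) →
  (∀ X y Y k' : ℕ, y0 ≤ y → z < y → y ^ K ≤ X → X < (y + 1) ^ k' →
    ∀ s v u : ℕ, s ∈ (PP z y).divisors → v ∈ (PP z y).divisors → u ∈ (PP y Y).divisors →
    (s * v * u) ^ 8 ≤ X → s.Coprime v → ∀ T' : Finset Ω, T' ⊆ T X →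
    (∀ ω ∈ T', s1 z y (f ω) = s ∧ s2 z y (f ω) = v ∧ (u : ℤ) ∣ f ω) →
    (∀ ω ∈ T', ∀ ω' ∈ T', ∀ p ∈ s.primeFactors, st ω p = st ω' p) →
    (T'.card : ℝ) ≤ C * D1 ^ k' * S X * ((1 / 2) ^ s.primeFactors.card * gw 1 c s) *
      ((c : ℝ) ^ v.primeFactors.card * (gw 1 c v / v)) *
      ((c : ℝ) ^ u.primeFactors.card / u) / (Real.log y) ^ N) →
  ∃ C2 : ℝ, ∀ X : ℕ, 1 ≤ X →
    ∑ ω ∈ (T X).filter (fun ω => Tt X ω), ((2 : ℝ) ^ rk ω) ^ k ≤ C2 * S X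

/-! ### I: the typical pairs -/

/-- a typical pair for one polynomial -/
def Typ1 (P : ℤ[X]) (X : ℕ) (t : ℤ × ℤ) : Prop :=
  |(((hv P t).natAbs.primeFactors.card : ℕ) : ℝ) - LL X| ≤ (LL X) ^ (3 / 4 : ℝ)

open Classical in
/-- **I** the number of the pairs that are not typical (Turán) -/
def S2_TYP : Prop := ∀ P : ℤ[X], Irreducible (P.map (Int.castRingHom ℚ)) →
  ∃ (C : ℝ) (X0 : ℕ), 16 ≤ X0 ∧ ∀ X : ℕ, X0 ≤ X →
    (((Icc (-(X : ℤ)) X ×ˢ Icc (-(X : ℤ)) X).filter (fun t : ℤ × ℤ =>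
      Int.gcd t.1 t.2 = 1 ∧ hv P t ≠ 0 ∧ ¬ Typ1 P X t)).card : ℝ) ≤
    C * (X : ℝ) ^ 2 / (LL X) ^ (1 / 2 : ℝ)

/-! ### J: the pairs of a family (from E, F, G, H) -/

/-- the data of a family of pairs -/
structure Fam2 {J : Type} [Fintype J] [DecidableEq J] (P : J → ℤ[X]) (a : Fin 3 → ℤ) (q : J → Fin 3)
    (m : J → ℕ) (n : ℕ) (sp : J → Bool) : Prop where
  fm : Fm P a
  rel : Fk P a (fun _ => false) q m 0 - Fk P a (fun _ => false) q m 1 =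
    Fk P a (fun _ => false) q m 2
  deg : ∀ k, (Fk P a (fun _ => false) q m k).natDegree = 2 * n
  mul : ∀ j, 1 ≤ m j
  spl : ∀ j, (sp j = true ↔ IsSquare (AdjoinRoot.mk ((P j).map (Int.castRingHom ℚ))
      ((kapQ P a (fun _ => false) q m j 0).map (Int.castRingHom ℚ))))
  crt : CritA q (fun j => evG m j && !(sp j))

open Classical in
/-- **J** all the moments over the typical pairs -/
def S2_MAIN : Prop := ∀ (J : Type) [Fintype J] [DecidableEq J] [Nonempty J] (P : J → ℤ[X])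
  (a : Fin 3 → ℤ) (q : J → Fin 3) (m : J → ℕ) (n : ℕ) (sp : J → Bool), Fam2 P a q m n sp →
  ∀ k : ℕ, ∃ C : ℝ, ∀ X : ℕ, 1 ≤ X →
    ∑ t ∈ (TH P X).filter (fun t => ∀ j, Typ1 (P j) X t),
      ((2 : ℝ) ^ Module.finrank ℤ (EAB (hv (Fk P a (fun _ => false) q m 0) t)
        (hv (Fk P a (fun _ => false) q m 1) t)).toAffine.Point) ^ k ≤ C * (X : ℝ) ^ 2

/-! ### K: the boxes (from I, J) -/

/-- all the moments over a subset of density one of the finite sets `Bx T` of dimension `d` -/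
def BXT (Bx : ℕ → Finset (ℤ × ℤ)) (d : ℕ) (r : ℤ × ℤ → ℕ) : Prop :=
  ∃ Ty : ℕ → Finset (ℤ × ℤ), (∀ T, Ty T ⊆ Bx T) ∧
    Tendsto (fun T : ℕ => ((Bx T \ Ty T).card : ℝ) / (T : ℝ) ^ d) atTop (nhds 0) ∧
    ∀ k : ℕ, ∃ C : ℝ, 0 ≤ C ∧ ∀ T : ℕ, 1 ≤ T → ∑ t ∈ Ty T, ((2 : ℝ) ^ r t) ^ k ≤ C * (T : ℝ) ^ d

open Classical in
/-- the boxes of a family of pairs -/
noncomputable def BoxM (M N : ℤ → ℤ → ℤ) (T : ℕ) : Finset (ℤ × ℤ) :=
  (Box T).filter (fun t : ℤ × ℤ =>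
      IsCoprime t.1 t.2 ∧ M t.1 t.2 ≠ 0 ∧ N t.1 t.2 ≠ 0 ∧ M t.1 t.2 ≠ N t.1 t.2)

/-- the rank for a family of pairs -/
noncomputable def rkM (M N : ℤ → ℤ → ℤ) (t : ℤ × ℤ) : ℕ :=
  Module.finrank ℤ (EAB (-(M t.1 t.2)) (-(N t.1 t.2))).toAffine.Point

/-- **K** the boxes for the forms `M`, `N` -/
def S2_BOX : Prop := ∀ (J : Type) [Fintype J] [DecidableEq J] [Nonempty J] (P : J → ℤ[X])
  (a : Fin 3 → ℤ) (q : J → Fin 3) (m : J → ℕ) (n : ℕ) (sp : J → Bool), Fam2 P a q m n sp →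
  ∀ M N : ℤ → ℤ → ℤ,
    (∀ u v : ℤ, hv (Fk P a (fun _ => false) q m 0) (u, v - 2 * u) = -(M u v)) →
    (∀ u v : ℤ, hv (Fk P a (fun _ => false) q m 1) (u, v - 2 * u) = -(N u v)) →
    BXT (BoxM M N) 2 (rkM M N)

/-! ### L: the families by height -/

/-- a parametrisation of the finite sets `Cf H` -/
def PARa (Cf : ℕ → Finset (ℤ × ℤ)) (k : ℕ) (Bx : ℕ → Finset (ℤ × ℤ)) (r r' : ℤ × ℤ → ℕ) : Prop :=
  ∃ (C : ℕ) (F : ℤ × ℤ → ℤ × ℤ), ∀ H : ℕ, Set.InjOn F (Cf H : Set (ℤ × ℤ)) ∧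
    ∀ c ∈ Cf H, (∀ T : ℕ, C * H < (T + 1) ^ k → F c ∈ Bx T) ∧ r c ≤ r' (F c)

/-- the lower bound for the cardinalities -/
def LOWa (Cf : ℕ → Finset (ℤ × ℤ)) (k d : ℕ) : Prop :=
  ∃ (c : ℝ) (C T0 : ℕ), 0 < c ∧ ∀ T H : ℕ, T0 ≤ T → C * T ^ k ≤ H →
    c * T ^ d ≤ ((Cf H).card : ℝ)

open Classical in
/-- all the moments of `r` over a subset of density one -/
def MOM (Cf : ℕ → Finset (ℤ × ℤ)) (r : ℤ × ℤ → ℕ) : Prop := ∃ A : Set (ℤ × ℤ),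
  Tendsto (fun H : ℕ => (((Cf H).filter (fun c => c ∉ A)).card : ℝ) / (Cf H).card)
    atTop (nhds 0) ∧
  ∀ k : ℕ, ∃ C : ℝ, ∀ H : ℕ, ∑ c ∈ (Cf H).filter (fun c => c ∈ A), (k : ℝ) ^ r c ≤
    C * (Cf H).card

/-- **L** from the boxes to the families -/
def S2_ASM : Prop := ∀ (Cf Bx : ℕ → Finset (ℤ × ℤ)) (k d : ℕ) (r r' : ℤ × ℤ → ℕ), 1 ≤ k → 1 ≤ d →
  (∀ H H', H ≤ H' → Cf H ⊆ Cf H') →
  (∃ Cb : ℝ, ∀ T : ℕ, 1 ≤ T → ((Bx T).card : ℝ) ≤ Cb * (T : ℝ) ^ d) →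
  PARa Cf k Bx r r' → LOWa Cf k d → BXT Bx d r' → MOM Cf r

/-- the rank of a short Weierstrass curve -/
noncomputable def rkS (c : ℤ × ℤ) : ℕ :=
  Module.finrank ℤ (Pool.Agent.W307.RT.Sh c.1 c.2).toAffine.Point

/-! ### M: the families (from K, L) -/

/-- **M1** `Z/2 x Z/6` -/
def S2_F26 : Prop := MOM (Pool.Agent.W307.RT.Cv 6) rkS

/-- **M2** `Z/2 x Z/8` -/
def S2_F28 : Prop := MOM (Pool.Agent.W307.RT.Cv 8) rkS

/-- **M3** `Z/8` -/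
def S2_F8 : Prop := MOM (Pool.Agent.L0h5.T8.Cc 8) rkS

/-- **M4** `Z/12` -/
def S2_F12 : Prop := MOM (Pool.Agent.L0h5.T8.Cc 12) rkS

/-- **M5** `Z/4` (from E, F, G, H, L and its own Turán estimate) -/
def S2_F4 : Prop := MOM (Pool.Agent.L0h5.T8.Cc 4) rkS

end Pool.Agent.L0h5.TU
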